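import Mathlib

namespace Pool.Agent.Results.MP_8bfff4_mp.ExactValue

open Matrix

section PolyCurve

variable {D : ℕ}

/-- evaluation of a matrix of polynomials at `t` -/
noncomputable def ev {D : ℕ} (t : ℂ) :
    Matrix (Fin D) (Fin D) (Polynomial ℂ) →+* Matrix (Fin D) (Fin D) ℂ :=
  (Polynomial.evalRingHom t).mapMatrix

lemma ev_apply (t : ℂ) (G : Matrix (Fin D) (Fin D) (Polynomial ℂ)) (i j : Fin D) :
    ev t G i j = (G i j).eval t := rfl

lemma curve_rank {ι : Type*} [Fintype ι] (G : ι → Matrix (Fin D) (Fin D) (Polynomial ℂ)) (r : ℕ)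
    (h : r ≤ Module.finrank ℂ (Submodule.span ℂ (Set.range fun i => ev 0 (G i)))) :
    ∃ p : Polynomial ℂ, p ≠ 0 ∧ ∀ t, p.eval t ≠ 0 →
      r ≤ Module.finrank ℂ (Submodule.span ℂ (Set.range fun i => ev t (G i))) := by
  obtain ⟨k, f, hrk, hf1, hf3⟩ : ∃ (k : ℕ) (f : Fin k → Matrix (Fin D) (Fin D) ℂ), r ≤ k ∧
      (∀ i, f i ∈ Set.range fun i => ev 0 (G i)) ∧ LinearIndependent ℂ f := by
    obtain ⟨f, hf1, -, hf3⟩ :=
      Submodule.exists_fun_fin_finrank_span_eq ℂ (Set.range fun i => ev 0 (G i))
    exact ⟨_, f, h, hf1, hf3⟩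
  choose e he using hf1
  have hinj : LinearMap.ker (Fintype.linearCombination ℂ f) = ⊥ := by
    rw [LinearMap.ker_eq_bot']
    intro m hm
    rw [Fintype.linearCombination_apply] at hm
    funext i
    exact (Fintype.linearIndependent_iff.1 hf3) m hm i
  obtain ⟨L, hL⟩ := LinearMap.exists_leftInverse_of_injective (Fintype.linearCombination ℂ f) hinj
  have hLf : ∀ i j, L (f j) i = if i = j then 1 else 0 := by
    intro i j
    have h1 : Fintype.linearCombination ℂ f (Pi.single j 1) = f j := by
      rw [Fintype.linearCombination_apply_single, one_smul]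
    have h2 := LinearMap.congr_fun hL (Pi.single j 1)
    rw [LinearMap.comp_apply, h1] at h2
    rw [h2]
    simp [Pi.single_apply]
  let P : Matrix (Fin k) (Fin k) (Polynomial ℂ) := fun i j =>
    ∑ a, ∑ b, Polynomial.C (L (Matrix.single a b 1) i) * G (e j) a b
  have hP : ∀ t i j, (P i j).eval t = L (ev t (G (e j))) i := by
    intro t i j
    conv_rhs => rw [Matrix.matrix_eq_sum_single (ev t (G (e j)))]
    simp only [P, Polynomial.eval_finsetSum, Polynomial.eval_mul, Polynomial.eval_C, map_sum,
      Finset.sum_apply]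
    apply Finset.sum_congr rfl
    intro a _
    apply Finset.sum_congr rfl
    intro b _
    have : (Matrix.single a b (ev t (G (e j)) a b) : Matrix (Fin D) (Fin D) ℂ)
        = (ev t (G (e j)) a b) • Matrix.single a b (1:ℂ) := by
      rw [Matrix.smul_single, smul_eq_mul, mul_one]
    rw [this, map_smul, Pi.smul_apply, smul_eq_mul, ev_apply, mul_comm]
  have he' : ∀ j, ev 0 (G (e j)) = f j := he
  have hdet : ∀ t, P.det.eval t = Matrix.det (Matrix.of fun i j => L (ev t (G (e j))) i) := by
    intro t
    have h1 := RingHom.map_det (Polynomial.evalRingHom t) P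
    rw [Polynomial.coe_evalRingHom] at h1
    rw [h1]
    congr 1
    ext i j
    simp [hP]
  refine ⟨P.det, ?_, ?_⟩
  · intro h0
    have h1 := hdet 0
    rw [h0, Polynomial.eval_zero] at h1
    have h2 : (Matrix.of fun i j => L (ev 0 (G (e j))) i : Matrix (Fin k) (Fin k) ℂ) = 1 := by
      ext i j
      rw [Matrix.of_apply, he', hLf, Matrix.one_apply]
    rw [h2, Matrix.det_one] at h1
    exact zero_ne_one h1
  · intro t ht
    rw [hdet] at ht
    have hli : LinearIndependent ℂ (fun j => ev t (G (e j))) := by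
      rw [Fintype.linearIndependent_iff]
      intro g hg
      have h1 : (Matrix.of fun i j => L (ev t (G (e j))) i : Matrix (Fin k) (Fin k) ℂ) *ᵥ g = 0 := by
        ext i
        have h2 := congrArg (fun w => L w i) hg
        simp only [map_sum, map_smul, Finset.sum_apply, Pi.smul_apply, smul_eq_mul, map_zero,
          Pi.zero_apply] at h2
        simp only [Matrix.mulVec, dotProduct, Pi.zero_apply, Matrix.of_apply]
        rw [← h2]
        apply Finset.sum_congr rfl
        intro j _
        ring
      intro i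
      exact congrFun (Matrix.eq_zero_of_mulVec_eq_zero ht h1) i
    have h3 := finrank_span_eq_card hli
    rw [Fintype.card_fin] at h3
    calc r ≤ k := hrk
      _ = Module.finrank ℂ (Submodule.span ℂ (Set.range fun j => ev t (G (e j)))) := h3.symm
      _ ≤ _ := by
        apply Submodule.finrank_mono
        apply Submodule.span_mono
        rintro _ ⟨j, rfl⟩
        exact ⟨e j, rfl⟩

/-- A polynomial curve which stays in a subspace outside the zeros of a nonzero polynomial
stays in it everywhere. -/
lemma curve_mem (S : Submodule ℂ (Matrix (Fin D) (Fin D) ℂ))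
    (G : Matrix (Fin D) (Fin D) (Polynomial ℂ)) {p : Polynomial ℂ} (hp : p ≠ 0)
    (h : ∀ t, p.eval t ≠ 0 → ev t G ∈ S) (t : ℂ) : ev t G ∈ S := by
  by_contra hn
  obtain ⟨l, hl1, hl2⟩ := Submodule.exists_le_ker_of_notMem hn
  let q : Polynomial ℂ := ∑ a, ∑ b, Polynomial.C (l (Matrix.single a b 1)) * G a b
  have hq : ∀ s, q.eval s = l (ev s G) := by
    intro s
    conv_rhs => rw [Matrix.matrix_eq_sum_single (ev s G)]
    simp only [q, Polynomial.eval_finsetSum, Polynomial.eval_mul, Polynomial.eval_C, map_sum]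
    apply Finset.sum_congr rfl
    intro a _
    apply Finset.sum_congr rfl
    intro b _
    have : (Matrix.single a b (ev s G a b) : Matrix (Fin D) (Fin D) ℂ)
        = (ev s G a b) • Matrix.single a b (1:ℂ) := by
      rw [Matrix.smul_single, smul_eq_mul, mul_one]
    rw [this, map_smul, smul_eq_mul, ev_apply, mul_comm]
  have hpq : p * q = 0 := by
    apply Polynomial.funext
    intro s
    rw [Polynomial.eval_mul, Polynomial.eval_zero, hq]
    by_cases hs : p.eval s = 0
    · rw [hs, zero_mul]
    · have := hl2 (h s hs)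
      rw [LinearMap.mem_ker] at this
      rw [this, mul_zero]
  rcases mul_eq_zero.1 hpq with h1 | h1
  · exact hp h1
  · apply hl1
    rw [← hq, h1, Polynomial.eval_zero]

/-- the line `(1-t) A + t B` as a polynomial matrix -/
noncomputable def line (A B : Matrix (Fin D) (Fin D) ℂ) : Matrix (Fin D) (Fin D) (Polynomial ℂ) :=
  A.map Polynomial.C + (Polynomial.X : Polynomial ℂ) • ((B - A).map Polynomial.C)

lemma ev_line (A B : Matrix (Fin D) (Fin D) ℂ) (t : ℂ) : ev t (line A B) = A + t • (B - A) := by
  ext i j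
  simp [ev_apply, line]

lemma ev_const (A : Matrix (Fin D) (Fin D) ℂ) (t : ℂ) : ev t (A.map Polynomial.C) = A := by
  ext i j
  simp [ev_apply]

end PolyCurve

end Pool.Agent.Results.MP_8bfff4_mp.ExactValue
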