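import Mathlib
import Pool.Agent.Helper565.QWa

namespace Pool.Agent.Results.MP_8bfff4_mp.ExactValue

open Matrix

section Products

variable {D : ℕ}

/-- the line spanned by a matrix -/
def ln (g : Matrix (Fin D) (Fin D) ℂ) : Submodule ℂ (Matrix (Fin D) (Fin D) ℂ) :=
  Submodule.span ℂ {g}

lemma mem_ln_mul {x y : Matrix (Fin D) (Fin D) ℂ} {P : Submodule ℂ (Matrix (Fin D) (Fin D) ℂ)} :
    x ∈ ln y * P ↔ ∃ z ∈ P, y * z = x := Submodule.mem_span_singleton_mul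

lemma mem_mul_ln {x y : Matrix (Fin D) (Fin D) ℂ} {P : Submodule ℂ (Matrix (Fin D) (Fin D) ℂ)} :
    x ∈ P * ln y ↔ ∃ z ∈ P, z * y = x := Submodule.mem_mul_span_singleton

lemma mem_ln_self (g : Matrix (Fin D) (Fin D) ℂ) : g ∈ ln g :=
  Submodule.subset_span rfl

lemma ln_le {g : Matrix (Fin D) (Fin D) ℂ} {U : Submodule ℂ (Matrix (Fin D) (Fin D) ℂ)} :
    ln g ≤ U ↔ g ∈ U := by
  unfold ln; rw [Submodule.span_singleton_le_iff_mem]

lemma ln_mul_ln (g h : Matrix (Fin D) (Fin D) ℂ) : ln g * ln h = ln (g * h) := by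
  unfold ln; rw [Submodule.span_mul_span, Set.singleton_mul_singleton]

lemma ln_one : ln (1 : Matrix (Fin D) (Fin D) ℂ) = 1 := by
  unfold ln; rw [Submodule.one_eq_span]

lemma mul_ln_eq_map (U : Submodule ℂ (Matrix (Fin D) (Fin D) ℂ)) (g : Matrix (Fin D) (Fin D) ℂ) :
    U * ln g = U.map (LinearMap.mulRight ℂ g) := by
  ext x
  rw [mem_mul_ln, Submodule.mem_map]
  rfl

lemma ln_mul_eq_map (U : Submodule ℂ (Matrix (Fin D) (Fin D) ℂ)) (g : Matrix (Fin D) (Fin D) ℂ) :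
    ln g * U = U.map (LinearMap.mulLeft ℂ g) := by
  ext x
  rw [mem_ln_mul, Submodule.mem_map]
  rfl

/-- dimension -/
noncomputable def fr (U : Submodule ℂ (Matrix (Fin D) (Fin D) ℂ)) : ℕ := Module.finrank ℂ U

lemma fr_mono {U V : Submodule ℂ (Matrix (Fin D) (Fin D) ℂ)} (h : U ≤ V) : fr U ≤ fr V :=
  Submodule.finrank_mono h

lemma eq_of_le_of_fr_le {U V : Submodule ℂ (Matrix (Fin D) (Fin D) ℂ)} (h : U ≤ V)
    (h2 : fr V ≤ fr U) : U = V := Submodule.eq_of_le_of_finrank_le h h2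

lemma fr_top : fr (⊤ : Submodule ℂ (Matrix (Fin D) (Fin D) ℂ)) = D * D := by
  unfold fr
  rw [finrank_top, Module.finrank_matrix]
  simp

lemma fr_le (U : Submodule ℂ (Matrix (Fin D) (Fin D) ℂ)) : fr U ≤ D * D := by
  rw [← fr_top]; exact fr_mono le_top

lemma fr_mul_ln_le (U : Submodule ℂ (Matrix (Fin D) (Fin D) ℂ)) (g : Matrix (Fin D) (Fin D) ℂ) :
    fr (U * ln g) ≤ fr U := by
  rw [mul_ln_eq_map]; exact Submodule.finrank_map_le _ _

lemma fr_ln_mul_le (U : Submodule ℂ (Matrix (Fin D) (Fin D) ℂ)) (g : Matrix (Fin D) (Fin D) ℂ) :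
    fr (ln g * U) ≤ fr U := by
  rw [ln_mul_eq_map]; exact Submodule.finrank_map_le _ _

lemma fr_mul_ln {U : Submodule ℂ (Matrix (Fin D) (Fin D) ℂ)} {g : Matrix (Fin D) (Fin D) ℂ}
    (hg : IsUnit g) : fr (U * ln g) = fr U := by
  apply le_antisymm (fr_mul_ln_le U g)
  obtain ⟨u, rfl⟩ := hg
  calc fr U = fr (U * ln (u : Matrix (Fin D) (Fin D) ℂ) * ln ((u⁻¹ : (Matrix (Fin D) (Fin D) ℂ)ˣ) : Matrix (Fin D) (Fin D) ℂ)) := by
        rw [mul_assoc, ln_mul_ln, Units.mul_inv, ln_one, mul_one]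
    _ ≤ _ := fr_mul_ln_le _ _

lemma fr_ln_mul {U : Submodule ℂ (Matrix (Fin D) (Fin D) ℂ)} {g : Matrix (Fin D) (Fin D) ℂ}
    (hg : IsUnit g) : fr (ln g * U) = fr U := by
  apply le_antisymm (fr_ln_mul_le U g)
  obtain ⟨u, rfl⟩ := hg
  calc fr U = fr (ln ((u⁻¹ : (Matrix (Fin D) (Fin D) ℂ)ˣ) : Matrix (Fin D) (Fin D) ℂ) * (ln (u : Matrix (Fin D) (Fin D) ℂ) * U)) := by
        rw [← mul_assoc, ln_mul_ln, Units.inv_mul, ln_one, one_mul]
    _ ≤ _ := fr_ln_mul_le _ _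

end Products

section Generic

variable {D : ℕ}

/-- a property of sequences of matrices that survives small moves along lines -/
def LO (P : (ℕ → Matrix (Fin D) (Fin D) ℂ) → Prop) : Prop :=
  ∀ s s' : ℕ → Matrix (Fin D) (Fin D) ℂ, P s → ∃ p : Polynomial ℂ, p ≠ 0 ∧
    ∀ t : ℂ, p.eval t ≠ 0 → P (fun i => s i + t • (s' i - s i))

lemma LO.and {P Q : (ℕ → Matrix (Fin D) (Fin D) ℂ) → Prop} (hP : LO P) (hQ : LO Q) :
    LO (fun s => P s ∧ Q s) := by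
  rintro s s' ⟨h1, h2⟩
  obtain ⟨p, hp, hp'⟩ := hP s s' h1
  obtain ⟨q, hq, hq'⟩ := hQ s s' h2
  refine ⟨p * q, mul_ne_zero hp hq, ?_⟩
  intro t ht
  rw [Polynomial.eval_mul] at ht
  exact ⟨hp' t (left_ne_zero_of_mul ht), hq' t (right_ne_zero_of_mul ht)⟩

lemma exists_eval_ne_zero {p : Polynomial ℂ} (hp : p ≠ 0) : ∃ t, p.eval t ≠ 0 := by
  by_contra h
  push Not at h
  exact hp (Polynomial.funext (fun t => by rw [h t, Polynomial.eval_zero]))

lemma LO.exists {P Q : (ℕ → Matrix (Fin D) (Fin D) ℂ) → Prop} (hP : LO P) (hQ : LO Q)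
    (W : Submodule ℂ (Matrix (Fin D) (Fin D) ℂ))
    (h1 : ∃ s : ℕ → Matrix (Fin D) (Fin D) ℂ, (∀ i, s i ∈ W) ∧ P s)
    (h2 : ∃ s : ℕ → Matrix (Fin D) (Fin D) ℂ, (∀ i, s i ∈ W) ∧ Q s) :
    ∃ s : ℕ → Matrix (Fin D) (Fin D) ℂ, (∀ i, s i ∈ W) ∧ P s ∧ Q s := by
  obtain ⟨s, hs, hPs⟩ := h1
  obtain ⟨s', hs', hQs⟩ := h2
  obtain ⟨p, hp, hp'⟩ := hP s s' hPs
  obtain ⟨q, hq, hq'⟩ := hQ s' s hQs
  have hq1 : q.comp (1 - Polynomial.X) ≠ 0 := by
    intro h0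
    apply hq
    have : (q.comp (1 - Polynomial.X)).comp (1 - Polynomial.X) = q := by
      rw [Polynomial.comp_assoc]; simp
    rw [← this, h0, Polynomial.zero_comp]
  obtain ⟨t, ht⟩ := exists_eval_ne_zero (mul_ne_zero hp hq1)
  rw [Polynomial.eval_mul, Polynomial.eval_comp] at ht
  refine ⟨fun i => s i + t • (s' i - s i), ?_, ?_, ?_⟩
  · intro i
    exact W.add_mem (hs i) (W.smul_mem _ (W.sub_mem (hs' i) (hs i)))
  · exact hp' t (left_ne_zero_of_mul ht)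
  · have h3 := right_ne_zero_of_mul ht
    simp only [Polynomial.eval_sub, Polynomial.eval_one, Polynomial.eval_X] at h3
    have h4 := hq' (1 - t) h3
    have : (fun i => s i + t • (s' i - s i)) = (fun i => s' i + (1 - t) • (s i - s' i)) := by
      funext i
      module
    rw [this]; exact h4

/-- a family of subspaces depending polynomially on the sequence -/
def PF (T : (ℕ → Matrix (Fin D) (Fin D) ℂ) → Submodule ℂ (Matrix (Fin D) (Fin D) ℂ)) : Prop :=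
  ∃ (ι : Type) (_ : Fintype ι)
    (F : (ℕ → Matrix (Fin D) (Fin D) (Polynomial ℂ)) → ι → Matrix (Fin D) (Fin D) (Polynomial ℂ)),
    ∀ S t, T (fun j => ev t (S j)) = Submodule.span ℂ (Set.range fun i => ev t (F S i))

lemma PF.lo {T : (ℕ → Matrix (Fin D) (Fin D) ℂ) → Submodule ℂ (Matrix (Fin D) (Fin D) ℂ)}
    (hT : PF T) (r : ℕ) : LO (fun s => r ≤ fr (T s)) := by
  obtain ⟨ι, _, F, hF⟩ := hT
  intro s s' h
  have e0 : ∀ t, (fun j => ev t (line (s j) (s' j))) = fun j => s j + t • (s' j - s j) := by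
    intro t; funext j; rw [ev_line]
  have e1 : (fun j => ev 0 (line (s j) (s' j))) = s := by
    rw [e0]; funext j; simp
  have h1 := hF (fun j => line (s j) (s' j)) 0
  rw [e1] at h1
  unfold fr at h
  rw [h1] at h
  obtain ⟨p, hp, hp'⟩ := curve_rank _ r h
  refine ⟨p, hp, ?_⟩
  intro t ht
  have h2 := hF (fun j => line (s j) (s' j)) t
  rw [e0] at h2
  unfold fr
  rw [h2]
  exact hp' t ht

lemma PF.const (U : Submodule ℂ (Matrix (Fin D) (Fin D) ℂ)) : PF (fun _ => U) := by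
  obtain ⟨k, C, hC⟩ := Submodule.fg_iff_exists_fin_generating_family.1
    (IsNoetherian.noetherian U)
  refine ⟨Fin k, inferInstance, fun _ i => (C i).map Polynomial.C, ?_⟩
  intro S t
  simp only [ev_const]
  exact hC.symm

lemma PF.coord (n : ℕ) : PF (fun s : ℕ → Matrix (Fin D) (Fin D) ℂ => ln (s n)) := by
  refine ⟨Unit, inferInstance, fun S _ => S n, ?_⟩
  intro S t
  unfold ln
  rw [Set.range_const]

lemma PF.sup {T T' : (ℕ → Matrix (Fin D) (Fin D) ℂ) → Submodule ℂ (Matrix (Fin D) (Fin D) ℂ)}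
    (hT : PF T) (hT' : PF T') : PF (fun s => T s ⊔ T' s) := by
  obtain ⟨ι, _, F, hF⟩ := hT
  obtain ⟨ι', _, F', hF'⟩ := hT'
  refine ⟨ι ⊕ ι', inferInstance, fun S i => Sum.elim (F S) (F' S) i, ?_⟩
  intro S t
  simp only
  rw [hF, hF', ← Submodule.span_union]
  congr 1
  ext x
  constructor
  · rintro (⟨i, rfl⟩ | ⟨i, rfl⟩)
    · exact ⟨Sum.inl i, rfl⟩
    · exact ⟨Sum.inr i, rfl⟩
  · rintro ⟨i | i, rfl⟩
    · exact Or.inl ⟨i, rfl⟩
    · exact Or.inr ⟨i, rfl⟩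

lemma PF.mul {T T' : (ℕ → Matrix (Fin D) (Fin D) ℂ) → Submodule ℂ (Matrix (Fin D) (Fin D) ℂ)}
    (hT : PF T) (hT' : PF T') : PF (fun s => T s * T' s) := by
  obtain ⟨ι, _, F, hF⟩ := hT
  obtain ⟨ι', _, F', hF'⟩ := hT'
  refine ⟨ι × ι', inferInstance, fun S i => F S i.1 * F' S i.2, ?_⟩
  intro S t
  simp only
  rw [hF, hF', Submodule.span_mul_span]
  congr 1
  ext x
  constructor
  · rintro ⟨_, ⟨i, rfl⟩, _, ⟨j, rfl⟩, rfl⟩
    exact ⟨(i, j), by simp⟩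
  · rintro ⟨⟨i, j⟩, rfl⟩
    exact ⟨_, ⟨i, rfl⟩, _, ⟨j, rfl⟩, by simp⟩

end Generic

end Pool.Agent.Results.MP_8bfff4_mp.ExactValue
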