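import Mathlib
import Pool.Agent.Helper565.QWb

namespace Pool.Agent.Results.MP_8bfff4_mp.ExactValue

open Matrix

section Full

variable {D : ℕ}

/-- every nonzero vector is moved onto the whole space by `U` -/
def Full (U : Submodule ℂ (Matrix (Fin D) (Fin D) ℂ)) : Prop :=
  ∀ ψ : Fin D → ℂ, ψ ≠ 0 → ∀ v, ∃ C ∈ U, C *ᵥ ψ = v

lemma Full.mono {U V : Submodule ℂ (Matrix (Fin D) (Fin D) ℂ)} (h : U ≤ V) (hU : Full U) :
    Full V := by
  intro ψ hψ v
  obtain ⟨C, hC, hv⟩ := hU ψ hψ v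
  exact ⟨C, h hC, hv⟩

lemma mul_kills {U W : Submodule ℂ (Matrix (Fin D) (Fin D) ℂ)} {ψ : Fin D → ℂ}
    (h : ∀ A ∈ W, A *ᵥ ψ = 0) : ∀ C ∈ U * W, C *ᵥ ψ = 0 := by
  intro C hC
  induction hC using Submodule.mul_induction_on' with
  | mem_mul_mem m hm n hn => rw [← Matrix.mulVec_mulVec, h n hn, Matrix.mulVec_zero]
  | add x hx y hy h1 h2 => rw [Matrix.add_mulVec, h1, h2, add_zero]

lemma exists_not_prop (hD : 2 ≤ D) (ψ : Fin D → ℂ) : ∃ v : Fin D → ℂ, ∀ c : ℂ, v ≠ c • ψ := by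
  by_contra h
  push Not at h
  have h1 : Module.finrank ℂ (Fin D → ℂ) ≤ 1 := by
    apply finrank_le_one ψ
    intro w
    obtain ⟨c, hc⟩ := h w
    exact ⟨c, hc.symm⟩
  rw [Module.finrank_fin_fun] at h1
  omega

lemma nokill (hD : 2 ≤ D) {W : Submodule ℂ (Matrix (Fin D) (Fin D) ℂ)} {p : ℕ}
    (hp : Full (W ^ p)) {ψ : Fin D → ℂ} (hψ : ψ ≠ 0) : ∃ A ∈ W, A *ᵥ ψ ≠ 0 := by
  by_contra h
  push Not at h
  obtain ⟨v, hv⟩ := exists_not_prop hD ψ
  obtain ⟨C, hC, hCv⟩ := hp ψ hψ v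
  cases p with
  | zero =>
    rw [pow_zero, Submodule.one_eq_span, Submodule.mem_span_singleton] at hC
    obtain ⟨c, rfl⟩ := hC
    rw [Matrix.smul_mulVec, Matrix.one_mulVec] at hCv
    exact hv c hCv.symm
  | succ p =>
    rw [pow_succ] at hC
    have := mul_kills h C hC
    rw [this] at hCv
    apply hv 0
    rw [← hCv, zero_smul]

lemma Full.succ (hD : 2 ≤ D) {W : Submodule ℂ (Matrix (Fin D) (Fin D) ℂ)} {n : ℕ}
    (h : Full (W ^ n)) : Full (W ^ (n+1)) := by
  intro ψ hψ v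
  obtain ⟨A, hA, hAψ⟩ := nokill hD h hψ
  obtain ⟨C, hC, hCv⟩ := h _ hAψ v
  refine ⟨C * A, ?_, ?_⟩
  · rw [pow_succ]; exact Submodule.mul_mem_mul hC hA
  · rw [← Matrix.mulVec_mulVec, hCv]

lemma Full.le (hD : 2 ≤ D) {W : Submodule ℂ (Matrix (Fin D) (Fin D) ℂ)} {n m : ℕ} (hnm : n ≤ m)
    (h : Full (W ^ n)) : Full (W ^ m) := by
  induction m, hnm using Nat.le_induction with
  | base => exact h
  | succ m _ ih => exact Full.succ hD ih

lemma exists_trace_ann {U : Submodule ℂ (Matrix (Fin D) (Fin D) ℂ)} (hU : U ≠ ⊤) :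
    ∃ C : Matrix (Fin D) (Fin D) ℂ, C ≠ 0 ∧ ∀ w ∈ U, (C * w).trace = 0 := by
  obtain ⟨l, hl1, hl2⟩ := Submodule.exists_le_ker_of_lt_top U (lt_top_iff_ne_top.2 hU)
  let C : Matrix (Fin D) (Fin D) ℂ := Matrix.of fun i j => l (Matrix.single j i 1)
  have hC : ∀ w, (C * w).trace = l w := by
    intro w
    conv_rhs => rw [Matrix.matrix_eq_sum_single w]
    simp only [Matrix.trace, Matrix.diag_apply, Matrix.mul_apply, map_sum, C, Matrix.of_apply]
    rw [Finset.sum_comm]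
    apply Finset.sum_congr rfl
    intro a _
    apply Finset.sum_congr rfl
    intro b _
    have : (Matrix.single a b (w a b) : Matrix (Fin D) (Fin D) ℂ)
        = (w a b) • Matrix.single a b (1:ℂ) := by
      rw [Matrix.smul_single, smul_eq_mul, mul_one]
    rw [this, map_smul, smul_eq_mul, mul_comm]
  refine ⟨C, ?_, ?_⟩
  · rintro h0
    apply hl1
    ext w
    rw [← hC w, h0]
    simp
  · intro w hw
    rw [hC]
    exact hl2 hw

/-- annihilator condition at time `n` -/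
def Ann (W : Submodule ℂ (Matrix (Fin D) (Fin D) ℂ)) (n : ℕ) (C : Matrix (Fin D) (Fin D) ℂ) :
    Prop :=
  C ≠ 0 ∧ ∀ w ∈ W ^ n, (C * w).trace = 0

lemma Ann.left {W : Submodule ℂ (Matrix (Fin D) (Fin D) ℂ)} {n m : ℕ}
    {C w : Matrix (Fin D) (Fin D) ℂ} (h : Ann W (n+m) C) (hw : w ∈ W ^ m) (h0 : w * C ≠ 0) :
    Ann W n (w * C) := by
  refine ⟨h0, ?_⟩
  intro v hv
  rw [Matrix.mul_assoc, Matrix.trace_mul_comm, Matrix.mul_assoc]
  apply h.2
  rw [pow_add]
  exact Submodule.mul_mem_mul hv hw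

lemma ker_eq_of_rank {C C' : Matrix (Fin D) (Fin D) ℂ} (h : ∀ z, C *ᵥ z = 0 → C' *ᵥ z = 0)
    (hr : C.rank ≤ C'.rank) : ∀ z, C' *ᵥ z = 0 → C *ᵥ z = 0 := by
  have h1 := LinearMap.finrank_range_add_finrank_ker C.mulVecLin
  have h2 := LinearMap.finrank_range_add_finrank_ker C'.mulVecLin
  have h3 : C.rank = Module.finrank ℂ (LinearMap.range C.mulVecLin) := rfl
  have h4 : C'.rank = Module.finrank ℂ (LinearMap.range C'.mulVecLin) := rfl
  have h5 : LinearMap.ker C.mulVecLin ≤ LinearMap.ker C'.mulVecLin := by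
    intro z hz
    rw [LinearMap.mem_ker, Matrix.mulVecLin_apply] at *
    exact h z hz
  have h6 : LinearMap.ker C.mulVecLin = LinearMap.ker C'.mulVecLin := by
    apply Submodule.eq_of_le_of_finrank_le h5
    omega
  intro z hz
  have : z ∈ LinearMap.ker C'.mulVecLin := by
    rw [LinearMap.mem_ker, Matrix.mulVecLin_apply]; exact hz
  rw [← h6, LinearMap.mem_ker, Matrix.mulVecLin_apply] at this
  exact this

/-- evaluation at a vector, restricted to a subspace of matrices -/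
noncomputable def evalAt (U : Submodule ℂ (Matrix (Fin D) (Fin D) ℂ)) (u : Fin D → ℂ) :
    U →ₗ[ℂ] (Fin D → ℂ) where
  toFun C := C.1 *ᵥ u
  map_add' x y := by simp [Matrix.add_mulVec]
  map_smul' c x := by simp [Matrix.smul_mulVec]

lemma evalAt_apply (U : Submodule ℂ (Matrix (Fin D) (Fin D) ℂ)) (u : Fin D → ℂ) (C : U) :
    evalAt U u C = C.1 *ᵥ u := rfl

/-- if every element of a full space is injective or zero on the range of `C`, then the range
of `C` is a line -/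
lemma range_line (hD : 2 ≤ D) {U : Submodule ℂ (Matrix (Fin D) (Fin D) ℂ)} (hU : Full U)
    {C : Matrix (Fin D) (Fin D) ℂ} (hC : ∀ w ∈ U, w * C ≠ 0 → C.rank ≤ (w * C).rank)
    {x : Fin D → ℂ} (hx : C *ᵥ x ≠ 0) (y : Fin D → ℂ) : ∃ c : ℂ, C *ᵥ y = c • (C *ᵥ x) := by
  have hsurj : LinearMap.range (evalAt U (C *ᵥ x)) = ⊤ := by
    rw [LinearMap.range_eq_top]
    intro v
    obtain ⟨w, hw, hwv⟩ := hU _ hx v
    exact ⟨⟨w, hw⟩, hwv⟩
  obtain ⟨σ, hσ⟩ := (evalAt U (C *ᵥ x)).exists_rightInverse_of_surjective hsurj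
  let θ : Module.End ℂ (Fin D → ℂ) := (evalAt U (C *ᵥ y)).comp σ
  have : Nontrivial (Fin D → ℂ) := by
    have : Nonempty (Fin D) := ⟨⟨0, by omega⟩⟩
    infer_instance
  obtain ⟨c, hc⟩ := Module.End.exists_eigenvalue θ
  obtain ⟨v, hv⟩ := hc.exists_hasEigenvector
  have h1 : θ v = c • v := hv.apply_eq_smul
  have h2 : (σ v).1 *ᵥ (C *ᵥ x) = v := LinearMap.congr_fun hσ v
  have h3 : (σ v).1 *ᵥ (C *ᵥ y) = c • v := h1
  have h4 : (σ v).1 * C ≠ 0 := by
    intro h0
    rw [Matrix.mulVec_mulVec, h0, Matrix.zero_mulVec] at h2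
    exact hv.2 h2.symm
  have h5 := hC _ (σ v).2 h4
  have h6 := ker_eq_of_rank (C := C) (C' := (σ v).1 * C) (by
    intro z hz
    rw [← Matrix.mulVec_mulVec, hz, Matrix.mulVec_zero]) h5 (y - c • x) (by
      rw [← Matrix.mulVec_mulVec, Matrix.mulVec_sub, Matrix.mulVec_sub, Matrix.mulVec_smul,
        Matrix.mulVec_smul, h2, h3, sub_self])
  refine ⟨c, ?_⟩
  rw [Matrix.mulVec_sub, Matrix.mulVec_smul, sub_eq_zero] at h6
  exact h6

/-- a matrix whose range is the line through `u`, annihilating a full space, is zero -/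
lemma line_ann {U : Submodule ℂ (Matrix (Fin D) (Fin D) ℂ)} (hU : Full U)
    {C : Matrix (Fin D) (Fin D) ℂ} {u : Fin D → ℂ} (hu : u ≠ 0) (hC : ∀ y, ∃ c : ℂ, C *ᵥ y = c • u)
    (h : ∀ w ∈ U, (C * w).trace = 0) : C = 0 := by
  choose c hc using fun j => hC (Pi.single j 1)
  have hCe : C = vecMulVec u c := by
    ext i j
    have := congrFun (hc j) i
    rw [Matrix.mulVec_single_one] at this
    rw [vecMulVec_apply]
    simp only [Matrix.col_apply, Pi.smul_apply, smul_eq_mul] at this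
    rw [this, mul_comm]
  have hc0 : c = 0 := by
    funext j
    obtain ⟨w, hw, hwu⟩ := hU u hu (Pi.single j 1)
    have h1 := h w hw
    rw [hCe, Matrix.vecMulVec_mul, Matrix.trace_vecMulVec, dotProduct_comm,
      ← Matrix.dotProduct_mulVec, hwu] at h1
    simpa using h1
  rw [hCe, hc0]
  simp

lemma exists_top (hD : 2 ≤ D) {W : Submodule ℂ (Matrix (Fin D) (Fin D) ℂ)} {p : ℕ}
    (hp : Full (W ^ p)) : ∃ n, W ^ n = ⊤ := by
  classical
  by_contra hcon
  push Not at hcon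
  have hp1 : 1 ≤ p := by
    rcases Nat.eq_zero_or_pos p with h0 | h0
    · exfalso
      subst h0
      obtain ⟨ψ0, hψ0⟩ : ∃ ψ : Fin D → ℂ, ψ ≠ 0 := by
        refine ⟨fun _ => 1, ?_⟩
        intro h
        have := congrFun h ⟨0, by omega⟩
        simp at this
      obtain ⟨v, hv⟩ := exists_not_prop hD ψ0
      obtain ⟨C, hC, hCv⟩ := hp ψ0 hψ0 v
      rw [pow_zero, Submodule.one_eq_span, Submodule.mem_span_singleton] at hC
      obtain ⟨c, rfl⟩ := hC
      rw [Matrix.smul_mulVec, Matrix.one_mulVec] at hCv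
      exact hv c hCv.symm
    · exact h0
  have hex : ∀ n, ∃ r, ∃ C, Ann W n C ∧ C.rank = r := by
    intro n
    obtain ⟨C, h1, h2⟩ := exists_trace_ann (hcon n)
    exact ⟨_, C, ⟨h1, h2⟩, rfl⟩
  let R : ℕ → ℕ := fun n => Nat.find (hex n)
  have hR1 : ∀ n, ∃ C, Ann W n C ∧ C.rank = R n := fun n => Nat.find_spec (hex n)
  have hR2 : ∀ n C, Ann W n C → R n ≤ C.rank := fun n C hC => Nat.find_min' (hex n) ⟨C, hC, rfl⟩
  have hmono : ∀ n, R n ≤ R (n + p) := by
    intro n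
    obtain ⟨C, hC, hCr⟩ := hR1 (n + p)
    obtain ⟨x, hx⟩ : ∃ x, C *ᵥ x ≠ 0 := by
      by_contra h
      push Not at h
      apply hC.1
      ext i j
      have := congrFun (h (Pi.single j 1)) i
      rw [Matrix.mulVec_single_one] at this
      simpa using this
    obtain ⟨w, hw, hwx⟩ := hp _ hx x
    have hx0 : x ≠ 0 := by
      rintro rfl
      simp at hx
    have h0 : w * C ≠ 0 := by
      intro h0
      rw [Matrix.mulVec_mulVec, h0, Matrix.zero_mulVec] at hwx
      exact hx0 hwx.symm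
    calc R n ≤ (w * C).rank := hR2 n _ (hC.left hw h0)
      _ ≤ C.rank := Matrix.rank_mul_le_right _ _
      _ = R (n+p) := hCr
  obtain ⟨n, hn⟩ : ∃ n, R n = R (n + p) := by
    by_contra h
    push Not at h
    have h1 : ∀ k, k ≤ R (k * p) := by
      intro k
      induction k with
      | zero => exact Nat.zero_le _
      | succ k ih =>
        have h2 := hmono (k * p)
        have h3 := h (k * p)
        rw [show (k+1) * p = k * p + p by ring]
        omega
    obtain ⟨C, _, hCr⟩ := hR1 ((D+1) * p)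
    have h4 := h1 (D+1)
    rw [← hCr] at h4
    have h5 := Matrix.rank_le_height C
    omega
  obtain ⟨C, hC, hCr⟩ := hR1 (n + p)
  have key : ∀ w ∈ W ^ p, w * C ≠ 0 → C.rank ≤ (w * C).rank := by
    intro w hw h0
    rw [hCr, ← hn]
    exact hR2 n _ (hC.left hw h0)
  obtain ⟨x, hx⟩ : ∃ x, C *ᵥ x ≠ 0 := by
    by_contra h
    push Not at h
    apply hC.1
    ext i j
    have := congrFun (h (Pi.single j 1)) i
    rw [Matrix.mulVec_single_one] at this
    simpa using this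
  have hline := range_line hD hp key hx
  exact hC.1 (line_ann (Full.le hD (Nat.le_add_left p n) hp) hx hline hC.2)

end Full

end Pool.Agent.Results.MP_8bfff4_mp.ExactValue
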