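import Mathlib
import Pool.Agent.Helper565.QWc

namespace Pool.Agent.Results.MP_8bfff4_mp.ExactValue

open Matrix

section Singular

variable {D : ℕ}

lemma ann_ne_top {W : Submodule ℂ (Matrix (Fin D) (Fin D) ℂ)} {n : ℕ}
    {C : Matrix (Fin D) (Fin D) ℂ} (h : Ann W n C) : W ^ n ≠ ⊤ := by
  intro ht
  apply h.1
  ext i j
  have := h.2 (Matrix.single j i 1) (by rw [ht]; trivial)
  rw [Matrix.trace_mul_single] at this
  simpa using this

lemma top_succ (hD : 2 ≤ D) {W : Submodule ℂ (Matrix (Fin D) (Fin D) ℂ)} {p : ℕ}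
    (hp : Full (W ^ p)) {n : ℕ} (h : W ^ n = ⊤) : W ^ (n+1) = ⊤ := by
  by_contra hcon
  obtain ⟨C, hC1, hC2⟩ := exists_trace_ann hcon
  obtain ⟨x, hx⟩ : ∃ x, C *ᵥ x ≠ 0 := by
    by_contra h
    push Not at h
    apply hC1
    ext i j
    have := congrFun (h (Pi.single j 1)) i
    rw [Matrix.mulVec_single_one] at this
    simpa using this
  obtain ⟨A, hA, hAx⟩ := nokill hD hp hx
  have hC : Ann W (n+1) C := ⟨hC1, hC2⟩
  have h1 : Ann W n (A * C) := by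
    apply hC.left (by rw [pow_one]; exact hA)
    intro h0
    rw [Matrix.mulVec_mulVec, h0, Matrix.zero_mulVec] at hAx
    exact hAx rfl
  exact ann_ne_top h1 h

lemma top_le (hD : 2 ≤ D) {W : Submodule ℂ (Matrix (Fin D) (Fin D) ℂ)} {p : ℕ}
    (hp : Full (W ^ p)) {n m : ℕ} (hnm : n ≤ m) (h : W ^ n = ⊤) : W ^ m = ⊤ := by
  induction m, hnm using Nat.le_induction with
  | base => exact h
  | succ m _ ih => exact top_succ hD hp ih

lemma full_of_top {U : Submodule ℂ (Matrix (Fin D) (Fin D) ℂ)} (h : U = ⊤) : Full U := by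
  subst h
  intro ψ hψ v
  obtain ⟨j, hj⟩ := Function.ne_iff.1 hψ
  refine ⟨vecMulVec v (Pi.single j (ψ j)⁻¹), trivial, ?_⟩
  rw [Matrix.vecMulVec_mulVec]
  have : (Pi.single j (ψ j)⁻¹ : Fin D → ℂ) ⬝ᵥ ψ = 1 := by
    rw [single_dotProduct]
    exact inv_mul_cancel₀ hj
  rw [this]
  simp

/-- product of the lines spanned by `s a, ..., s (a+m-1)` -/
def Q : ℕ → ℕ → (ℕ → Matrix (Fin D) (Fin D) ℂ) → Submodule ℂ (Matrix (Fin D) (Fin D) ℂ)
  | 0, _, _ => 1
  | (m+1), a, s => ln (s a) * Q m (a+1) s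

lemma Q_succ (m a : ℕ) (s : ℕ → Matrix (Fin D) (Fin D) ℂ) :
    Q (m+1) a s = ln (s a) * Q m (a+1) s := rfl

lemma Q_succ' (m a : ℕ) (s : ℕ → Matrix (Fin D) (Fin D) ℂ) :
    Q (m+1) a s = Q m a s * ln (s (a+m)) := by
  induction m generalizing a with
  | zero => simp [Q]
  | succ m ih =>
    rw [Q_succ, ih (a+1), ← mul_assoc, ← Q_succ]
    congr 3
    ring

lemma Q_eq_ln (m a : ℕ) (s : ℕ → Matrix (Fin D) (Fin D) ℂ) : ∃ g, Q m a s = ln g := by
  induction m generalizing a with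
  | zero => exact ⟨1, by rw [ln_one]; rfl⟩
  | succ m ih =>
    obtain ⟨g, hg⟩ := ih (a+1)
    exact ⟨s a * g, by rw [Q_succ, hg, ln_mul_ln]⟩

lemma Q_le {W : Submodule ℂ (Matrix (Fin D) (Fin D) ℂ)} {s : ℕ → Matrix (Fin D) (Fin D) ℂ}
    (hs : ∀ i, s i ∈ W) (m a : ℕ) : Q m a s ≤ W ^ m := by
  induction m generalizing a with
  | zero => rw [pow_zero]; exact le_refl _
  | succ m ih =>
    rw [Q_succ, pow_succ']
    exact mul_le_mul' (ln_le.2 (hs a)) (ih (a+1))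

lemma Q_shift (m a b : ℕ) (s : ℕ → Matrix (Fin D) (Fin D) ℂ) :
    Q m (a+b) s = Q m a (fun i => s (i+b)) := by
  induction m generalizing a with
  | zero => rfl
  | succ m ih =>
    rw [Q_succ, Q_succ, ← ih (a+1)]
    congr 2
    ring

lemma PF.Q (m a : ℕ) : PF (fun s : ℕ → Matrix (Fin D) (Fin D) ℂ => Q m a s) := by
  induction m generalizing a with
  | zero => exact PF.const 1
  | succ m ih => exact (PF.coord a).mul (ih (a+1))

/-- the largest dimension in a family -/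
noncomputable def mx (W : Submodule ℂ (Matrix (Fin D) (Fin D) ℂ))
    (T : (ℕ → Matrix (Fin D) (Fin D) ℂ) → Submodule ℂ (Matrix (Fin D) (Fin D) ℂ)) : ℕ :=
  sSup {r | ∃ s : ℕ → Matrix (Fin D) (Fin D) ℂ, (∀ i, s i ∈ W) ∧ fr (T s) = r}

lemma le_mx {W : Submodule ℂ (Matrix (Fin D) (Fin D) ℂ)}
    {T : (ℕ → Matrix (Fin D) (Fin D) ℂ) → Submodule ℂ (Matrix (Fin D) (Fin D) ℂ)}
    {s : ℕ → Matrix (Fin D) (Fin D) ℂ} (hs : ∀ i, s i ∈ W) : fr (T s) ≤ mx W T := by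
  apply le_csSup
  · refine ⟨D * D, ?_⟩
    rintro _ ⟨s, _, rfl⟩
    exact fr_le _
  · exact ⟨s, hs, rfl⟩

lemma exists_mx (W : Submodule ℂ (Matrix (Fin D) (Fin D) ℂ))
    (T : (ℕ → Matrix (Fin D) (Fin D) ℂ) → Submodule ℂ (Matrix (Fin D) (Fin D) ℂ)) :
    ∃ s : ℕ → Matrix (Fin D) (Fin D) ℂ, (∀ i, s i ∈ W) ∧ fr (T s) = mx W T := by
  apply Nat.sSup_mem (s := {r | ∃ s : ℕ → Matrix (Fin D) (Fin D) ℂ, (∀ i, s i ∈ W) ∧ fr (T s) = r})
  · exact ⟨_, fun _ => 0, fun _ => W.zero_mem, rfl⟩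
  · refine ⟨D * D, ?_⟩
    rintro _ ⟨s, _, rfl⟩
    exact fr_le _

lemma fr_top_mul_ln (g : Matrix (Fin D) (Fin D) ℂ) : fr (⊤ * ln g) = D * g.rank := by
  let R : Submodule ℂ (Fin D → ℂ) := LinearMap.range g.vecMulLinear
  have hR : Module.finrank ℂ R = g.rank := by
    have : g.rank = gᵀ.rank := (Matrix.rank_transpose g).symm
    rw [this]
    unfold Matrix.rank
    rw [Matrix.mulVecLin_transpose]
  let Φ : (Fin D → R) →ₗ[ℂ] Matrix (Fin D) (Fin D) ℂ :=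
    { toFun := fun f => Matrix.of fun i => (f i : Fin D → ℂ)
      map_add' := by intro f g; ext i j; simp
      map_smul' := by intro c f; ext i j; simp }
  have hΦ : Function.Injective Φ := by
    intro f g h
    funext i
    apply Subtype.ext
    funext j
    exact congrFun (congrFun h i) j
  have hrange : LinearMap.range Φ = ⊤ * ln g := by
    ext M
    rw [mem_mul_ln, LinearMap.mem_range]
    constructor
    · rintro ⟨f, rfl⟩
      choose v hv using fun i => (f i).2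
      refine ⟨Matrix.of v, trivial, ?_⟩
      ext i j
      have := congrFun (hv i) j
      simp only [Matrix.vecMulLinear_apply] at this
      simp only [Φ, LinearMap.coe_mk, AddHom.coe_mk, Matrix.of_apply]
      rw [← this]
      simp [Matrix.mul_apply, Matrix.vecMul, dotProduct]
    · rintro ⟨C, -, rfl⟩
      refine ⟨fun i => ⟨g.vecMulLinear (C i), LinearMap.mem_range_self _ _⟩, ?_⟩
      ext i j
      simp [Φ, Matrix.mul_apply, Matrix.vecMul, dotProduct]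
  unfold fr
  rw [← hrange, LinearMap.finrank_range_of_inj hΦ, Module.finrank_pi_fintype]
  simp [hR]

lemma finrank_map_add {A B : Submodule ℂ (Matrix (Fin D) (Fin D) ℂ)} {E : Type*} [AddCommGroup E]
    [Module ℂ E] (f : Matrix (Fin D) (Fin D) ℂ →ₗ[ℂ] E) (h : A ≤ B) :
    Module.finrank ℂ (B.map f) + fr A ≤ Module.finrank ℂ (A.map f) + fr B := by
  have key : ∀ C : Submodule ℂ (Matrix (Fin D) (Fin D) ℂ),
      Module.finrank ℂ (C.map f) + Module.finrank ℂ (LinearMap.ker (f.domRestrict C)) = fr C := by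
    intro C
    have h1 := LinearMap.finrank_range_add_finrank_ker (f.domRestrict C)
    have h2 : LinearMap.range (f.domRestrict C) = C.map f := LinearMap.range_domRestrict C f
    rw [h2] at h1
    exact h1
  have hA := key A
  have hB := key B
  have h3 : Module.finrank ℂ (LinearMap.ker (f.domRestrict A)) ≤
      Module.finrank ℂ (LinearMap.ker (f.domRestrict B)) := by
    let g : LinearMap.ker (f.domRestrict A) →ₗ[ℂ] LinearMap.ker (f.domRestrict B) :=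
      LinearMap.codRestrict _ ((Submodule.inclusion h).comp (LinearMap.ker (f.domRestrict A)).subtype)
        (by
          intro c
          have := c.2
          rw [LinearMap.mem_ker] at *
          exact this)
    apply LinearMap.finrank_le_finrank_of_injective (f := g)
    intro x y hxy
    apply Subtype.ext
    apply Submodule.inclusion_injective h
    exact congrArg Subtype.val hxy
  omega

/-- right multiplication by `x` that preserves the dimension of `V` preserves the dimension of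
each subspace of `V` -/
lemma fr_mul_ln_of_le {V V' : Submodule ℂ (Matrix (Fin D) (Fin D) ℂ)}
    {x : Matrix (Fin D) (Fin D) ℂ} (h : V' ≤ V) (hV : fr V ≤ fr (V * ln x)) :
    fr V' ≤ fr (V' * ln x) := by
  have := finrank_map_add (LinearMap.mulRight ℂ x) h
  rw [← mul_ln_eq_map, ← mul_ln_eq_map] at this
  unfold fr at *
  omega

section main1

variable {W : Submodule ℂ (Matrix (Fin D) (Fin D) ℂ)}

lemma isUnit_of_fr {X : Matrix (Fin D) (Fin D) ℂ} (h : fr (⊤ * ln X) = D * D) : IsUnit X := by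
  have h1 : (⊤ : Submodule ℂ (Matrix (Fin D) (Fin D) ℂ)) * ln X = ⊤ := by
    apply eq_of_le_of_fr_le le_top
    rw [h, fr_top]
  have h2 : (1 : Matrix (Fin D) (Fin D) ℂ) ∈ (⊤ : Submodule ℂ (Matrix (Fin D) (Fin D) ℂ)) * ln X := by
    rw [h1]; trivial
  rw [mem_mul_ln] at h2
  obtain ⟨C, -, hC⟩ := h2
  exact (Matrix.isUnit_iff_isUnit_det X).2 (Matrix.isUnit_det_of_left_inverse hC)

lemma dvd_mx (m : ℕ) : D ∣ mx W (fun s => ⊤ * Q m 0 s) := by
  obtain ⟨s, -, hs⟩ := exists_mx W (fun s => ⊤ * Q m 0 s)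
  obtain ⟨g, hg⟩ := Q_eq_ln m 0 s
  rw [← hs, hg, fr_top_mul_ln]
  exact Dvd.intro _ rfl

lemma mx_anti (m : ℕ) : mx W (fun s => ⊤ * Q (m+1) 0 s) ≤ mx W (fun s => ⊤ * Q m 0 s) := by
  obtain ⟨s, hsW, hs⟩ := exists_mx W (fun s => ⊤ * Q (m+1) 0 s)
  rw [← hs]
  calc fr (⊤ * Q (m+1) 0 s) = fr (⊤ * Q m 0 s * ln (s (0+m))) := by rw [Q_succ', mul_assoc]
    _ ≤ fr (⊤ * Q m 0 s) := fr_mul_ln_le _ _
    _ ≤ _ := le_mx (T := fun s => ⊤ * Q m 0 s) hsW

lemma exists_m (hs : ∀ X ∈ W, ¬ IsUnit X) : ∃ m, 1 ≤ m ∧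
    mx W (fun s => ⊤ * Q (m+1) 0 s) = mx W (fun s => ⊤ * Q m 0 s) ∧
    mx W (fun s => ⊤ * Q m 0 s) + D * m ≤ D * D := by
  by_contra hcon
  push Not at hcon
  have h1 : mx W (fun s => ⊤ * Q 1 0 s) + D ≤ D * D := by
    obtain ⟨s, hsW, hsm⟩ := exists_mx W (fun s => ⊤ * Q 1 0 s)
    have h2 : mx W (fun s => ⊤ * Q 1 0 s) ≠ D * D := by
      rw [← hsm]
      intro h3
      have h4 : Q 1 0 s = ln (s 0) := by simp [Q]
      rw [h4] at h3
      exact hs _ (hsW 0) (isUnit_of_fr h3)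
    have h3 : mx W (fun s => ⊤ * Q 1 0 s) ≤ D * D := by rw [← hsm]; exact fr_le _
    obtain ⟨c, hc⟩ := dvd_mx (W := W) 1
    rw [hc] at h2 h3 ⊢
    have h5 : c < D := by
      rcases Nat.lt_or_ge c D with h | h
      · exact h
      · exfalso
        apply h2
        exact le_antisymm h3 (Nat.mul_le_mul_left D h)
    calc D * c + D = D * (c + 1) := by ring
      _ ≤ D * D := Nat.mul_le_mul_left D h5
  have h2 : ∀ m, 1 ≤ m → mx W (fun s => ⊤ * Q m 0 s) + D * m ≤ D * D := by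
    intro m hm
    induction m, hm using Nat.le_induction with
    | base => rw [mul_one]; exact h1
    | succ m hm ih =>
      have h3 := mx_anti (W := W) m
      have h4 : mx W (fun s => ⊤ * Q (m+1) 0 s) ≠ mx W (fun s => ⊤ * Q m 0 s) := by
        intro h5
        have := hcon m hm h5
        omega
      obtain ⟨a, ha⟩ := dvd_mx (W := W) m
      obtain ⟨b, hb⟩ := dvd_mx (W := W) (m+1)
      rw [ha] at ih h3 h4
      rw [hb] at h3 h4 ⊢
      have h5 : b < a := by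
        rcases Nat.lt_or_ge b a with h | h
        · exact h
        · exfalso
          apply h4
          exact le_antisymm h3 (Nat.mul_le_mul_left D h)
      have h6 : D * (b + 1) ≤ D * a := Nat.mul_le_mul_left D h5
      have h7 : D * (b+1) = D * b + D := by ring
      have h8 : D * (m+1) = D * m + D := by ring
      omega
  have h3 := h2 (D+1) (by omega)
  have h4 : D * (D + 1) = D * D + D := by ring
  have h5 : D * D ≤ D * D - D ∨ D = 0 := by
    left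
    omega
  rcases Nat.eq_zero_or_pos D with h0 | h0
  · subst h0
    have h6 := hcon 1 le_rfl
    have h7 : ∀ k, mx W (fun s => ⊤ * Q k 0 s) = 0 := by
      intro k
      obtain ⟨s, -, hsm⟩ := exists_mx W (fun s => ⊤ * Q k 0 s)
      rw [← hsm]
      have := fr_le (⊤ * Q k 0 s)
      simpa using this
    rw [h7, h7] at h6
    simp at h6
  · omega

/-- generic growth: nondecreasing -/
lemma grow_aux {m n : ℕ} (hm : mx W (fun s => ⊤ * Q (m+1) 0 s) = mx W (fun s => ⊤ * Q m 0 s))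
    {s : ℕ → Matrix (Fin D) (Fin D) ℂ} (hs : ∀ i, s i ∈ W)
    (h1 : mx W (fun s => ⊤ * Q (m+1) 0 s) ≤ fr (⊤ * Q (m+1) 0 s))
    (h2 : mx W (fun s => W ^ n * Q m 0 s) ≤ fr (W ^ n * Q m 0 s)) :
    mx W (fun s => W ^ n * Q m 0 s) ≤ fr (W ^ n * ln (s 0) * Q m 1 s) := by
  have h3 : fr (⊤ * Q m 0 s) ≤ mx W (fun s => ⊤ * Q m 0 s) := le_mx (T := fun s => ⊤ * Q m 0 s) hs
  have h4 : fr (⊤ * Q m 0 s) ≤ fr (⊤ * Q m 0 s * ln (s (0+m))) := by
    rw [mul_assoc, ← Q_succ']; omega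
  have h5 : W ^ n * Q m 0 s ≤ ⊤ * Q m 0 s := mul_le_mul' le_top le_rfl
  have h6 := fr_mul_ln_of_le h5 h4
  rw [mul_assoc, ← Q_succ', Q_succ, ← mul_assoc] at h6
  exact h2.trans h6

lemma shift_le (U : Submodule ℂ (Matrix (Fin D) (Fin D) ℂ)) (m : ℕ)
    {s : ℕ → Matrix (Fin D) (Fin D) ℂ} (hs : ∀ i, s i ∈ W) :
    fr (U * Q m 1 s) ≤ mx W (fun s => U * Q m 0 s) := by
  rw [show (1:ℕ) = 0 + 1 by rfl, Q_shift]
  exact le_mx (T := fun s => U * Q m 0 s) (fun i => hs (i+1))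

lemma shift_exists (U : Submodule ℂ (Matrix (Fin D) (Fin D) ℂ)) (m : ℕ) :
    ∃ s : ℕ → Matrix (Fin D) (Fin D) ℂ, (∀ i, s i ∈ W) ∧
      mx W (fun s => U * Q m 0 s) ≤ fr (U * Q m 1 s) := by
  obtain ⟨s, hsW, hs⟩ := exists_mx W (fun s => U * Q m 0 s)
  refine ⟨fun i => s (i-1), fun i => hsW _, ?_⟩
  rw [← hs, show (1:ℕ) = 0 + 1 by rfl, Q_shift]
  simp

lemma grow_mono {m : ℕ} (hm : mx W (fun s => ⊤ * Q (m+1) 0 s) = mx W (fun s => ⊤ * Q m 0 s))
    (n : ℕ) : mx W (fun s => W ^ n * Q m 0 s) ≤ mx W (fun s => W ^ (n+1) * Q m 0 s) := by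
  have hP1 := ((PF.const (⊤ : Submodule ℂ (Matrix (Fin D) (Fin D) ℂ))).mul (PF.Q (m+1) 0)).lo
    (mx W (fun s => ⊤ * Q (m+1) 0 s))
  have hP2 := ((PF.const (W ^ n)).mul (PF.Q m 0)).lo (mx W (fun s => W ^ n * Q m 0 s))
  obtain ⟨s, hsW, h1, h2⟩ := hP1.exists hP2 W
    (by obtain ⟨s, h, h'⟩ := exists_mx W (fun s => ⊤ * Q (m+1) 0 s); exact ⟨s, h, h'.ge⟩)
    (by obtain ⟨s, h, h'⟩ := exists_mx W (fun s => W ^ n * Q m 0 s); exact ⟨s, h, h'.ge⟩)
  calc mx W (fun s => W ^ n * Q m 0 s) ≤ fr (W ^ n * ln (s 0) * Q m 1 s) :=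
        grow_aux hm hsW h1 h2
    _ ≤ fr (W ^ (n+1) * Q m 1 s) := by
        apply fr_mono
        rw [pow_succ]
        exact mul_le_mul' (mul_le_mul' le_rfl (ln_le.2 (hsW 0))) le_rfl
    _ ≤ _ := shift_le _ _ hsW

lemma grow_stable {m : ℕ} (hm : mx W (fun s => ⊤ * Q (m+1) 0 s) = mx W (fun s => ⊤ * Q m 0 s))
    (n : ℕ) (h : mx W (fun s => W ^ (n+1) * Q m 0 s) ≤ mx W (fun s => W ^ n * Q m 0 s)) :
    mx W (fun s => W ^ (n+2) * Q m 0 s) ≤ mx W (fun s => W ^ (n+1) * Q m 0 s) := by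
  have hP1 := ((PF.const (⊤ : Submodule ℂ (Matrix (Fin D) (Fin D) ℂ))).mul (PF.Q (m+1) 0)).lo
    (mx W (fun s => ⊤ * Q (m+1) 0 s))
  have hP2 := ((PF.const (W ^ n)).mul (PF.Q m 0)).lo (mx W (fun s => W ^ n * Q m 0 s))
  have hP3 := ((PF.const (W ^ (n+2))).mul (PF.Q m 1)).lo (mx W (fun s => W ^ (n+2) * Q m 0 s))
  obtain ⟨s, hsW, ⟨h1, h2⟩, h3⟩ := (hP1.and hP2).exists hP3 W
    (hP1.exists hP2 W
      (by obtain ⟨s, h, h'⟩ := exists_mx W (fun s => ⊤ * Q (m+1) 0 s); exact ⟨s, h, h'.ge⟩)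
      (by obtain ⟨s, h, h'⟩ := exists_mx W (fun s => W ^ n * Q m 0 s); exact ⟨s, h, h'.ge⟩))
    (shift_exists _ _)
  have h4 := grow_aux hm hsW h1 h2
  have h5 : W ^ n * ln (s 0) * Q m 1 s ≤ W ^ (n+1) * Q m 1 s := by
    rw [pow_succ]
    exact mul_le_mul' (mul_le_mul' le_rfl (ln_le.2 (hsW 0))) le_rfl
  have h6 : W ^ n * ln (s 0) * Q m 1 s = W ^ (n+1) * Q m 1 s := by
    apply eq_of_le_of_fr_le h5
    calc fr (W ^ (n+1) * Q m 1 s) ≤ mx W (fun s => W ^ (n+1) * Q m 0 s) := shift_le _ _ hsW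
      _ ≤ _ := h.trans h4
  have h7 : W ^ (n+1) * Q (m+1) 0 s = W ^ (n+2) * Q m 1 s := by
    rw [Q_succ, pow_succ' W n, pow_succ' W (n+1), mul_assoc, mul_assoc, ← h6]
    simp only [mul_assoc, zero_add]
  calc mx W (fun s => W ^ (n+2) * Q m 0 s) ≤ fr (W ^ (n+2) * Q m 1 s) := h3
    _ = fr (W ^ (n+1) * Q m 0 s * ln (s (0+m))) := by rw [← h7, Q_succ', mul_assoc]
    _ ≤ fr (W ^ (n+1) * Q m 0 s) := fr_mul_ln_le _ _
    _ ≤ _ := le_mx (T := fun s => W ^ (n+1) * Q m 0 s) hsW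

lemma grow_strict (hD : 2 ≤ D) {p : ℕ} (hp : Full (W ^ p)) {m : ℕ}
    (hm : mx W (fun s => ⊤ * Q (m+1) 0 s) = mx W (fun s => ⊤ * Q m 0 s))
    (n : ℕ) (h : mx W (fun s => W ^ n * Q m 0 s) < mx W (fun s => ⊤ * Q m 0 s)) :
    mx W (fun s => W ^ n * Q m 0 s) < mx W (fun s => W ^ (n+1) * Q m 0 s) := by
  by_contra hcon
  push Not at hcon
  have key : ∀ k, mx W (fun s => W ^ (n+k+1) * Q m 0 s) ≤ mx W (fun s => W ^ (n+k) * Q m 0 s) := by
    intro k
    induction k with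
    | zero => exact hcon
    | succ k ih => exact grow_stable hm (n+k) ih
  have key2 : ∀ k, mx W (fun s => W ^ (n+k) * Q m 0 s) ≤ mx W (fun s => W ^ n * Q m 0 s) := by
    intro k
    induction k with
    | zero => exact le_rfl
    | succ k ih => exact (key k).trans ih
  obtain ⟨N, hN⟩ := exists_top hD hp
  have h1 : W ^ (n+N) = ⊤ := top_le hD hp (Nat.le_add_left N n) hN
  have h2 := key2 N
  rw [h1] at h2
  omega

lemma exists_nokill (hD : 2 ≤ D) {p : ℕ} (hp : Full (W ^ p)) {ψ : Fin D → ℂ} (hψ : ψ ≠ 0)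
    (m : ℕ) : ∃ s : ℕ → Matrix (Fin D) (Fin D) ℂ, (∀ i, s i ∈ W) ∧
      ∃ g, Q m 0 s = ln g ∧ g *ᵥ ψ ≠ 0 := by
  induction m with
  | zero =>
    refine ⟨fun _ => 0, fun _ => W.zero_mem, 1, ?_, by simpa using hψ⟩
    rw [ln_one]; rfl
  | succ m ih =>
    obtain ⟨s', hs', g, hg, hgψ⟩ := ih
    obtain ⟨A, hA, hAg⟩ := nokill hD hp hgψ
    refine ⟨fun i => match i with | 0 => A | (i+1) => s' i, ?_, A * g, ?_, ?_⟩
    · intro i
      cases i with
      | zero => exact hA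
      | succ i => exact hs' i
    · rw [Q_succ, Q_shift, ← ln_mul_ln, ← hg]
    · rw [← Matrix.mulVec_mulVec]; exact hAg

/-- Part 1: a space of singular matrices -/
theorem part1 (hD : 2 ≤ D) {p : ℕ} (hp : Full (W ^ p)) (hs : ∀ X ∈ W, ¬ IsUnit X) :
    Full (W ^ (D * D - D + 1)) := by
  obtain ⟨m, hm1, hm2, hm3⟩ := exists_m hs
  set r := mx W (fun s => ⊤ * Q m 0 s) with hr
  have hne : ∀ ψ : Fin D → ℂ, ψ ≠ 0 → ∃ s : ℕ → Matrix (Fin D) (Fin D) ℂ, (∀ i, s i ∈ W) ∧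
      1 ≤ fr (Q m 0 s * ln (vecMulVec ψ (fun _ => 1))) := by
    intro ψ hψ
    obtain ⟨s, hsW, g, hg, hgψ⟩ := exists_nokill hD hp hψ m
    refine ⟨s, hsW, ?_⟩
    rw [hg, ln_mul_ln, Matrix.mul_vecMulVec]
    have h0 : vecMulVec (g *ᵥ ψ) (fun _ : Fin D => (1:ℂ)) ≠ 0 := by
      apply vecMulVec_ne_zero hgψ
      intro h
      have := congrFun h ⟨0, by omega⟩
      simp at this
    unfold fr ln
    rw [finrank_span_singleton h0]
  have hd0 : 1 ≤ mx W (fun s => W ^ 0 * Q m 0 s) := by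
    obtain ⟨ψ0, hψ0⟩ : ∃ ψ : Fin D → ℂ, ψ ≠ 0 := by
      refine ⟨fun _ => 1, ?_⟩
      intro h
      have := congrFun h ⟨0, by omega⟩
      simp at this
    obtain ⟨s, hsW, hs1⟩ := hne ψ0 hψ0
    calc 1 ≤ fr (Q m 0 s * ln (vecMulVec ψ0 (fun _ => 1))) := hs1
      _ ≤ fr (Q m 0 s) := fr_mul_ln_le _ _
      _ = fr (W ^ 0 * Q m 0 s) := by rw [pow_zero, one_mul]
      _ ≤ _ := le_mx (T := fun s => W ^ 0 * Q m 0 s) hsW
  have hd : ∀ n, n + 1 ≤ r → n + 1 ≤ mx W (fun s => W ^ n * Q m 0 s) := by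
    intro n
    induction n with
    | zero => intro _; exact hd0
    | succ n ih =>
      intro h
      have h1 := ih (by omega)
      rcases Nat.lt_or_ge (mx W (fun s => W ^ n * Q m 0 s)) r with h2 | h2
      · have h3 := grow_strict hD hp hm2 n h2
        omega
      · have h3 := grow_mono hm2 n
        omega
  have hr1 : 1 ≤ r := by
    have h1 : mx W (fun s => W ^ 0 * Q m 0 s) ≤ r := by
      obtain ⟨s, hsW, hs1⟩ := exists_mx W (fun s => W ^ 0 * Q m 0 s)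
      rw [← hs1]
      calc fr (W ^ 0 * Q m 0 s) ≤ fr (⊤ * Q m 0 s) := fr_mono (mul_le_mul' le_top le_rfl)
        _ ≤ _ := le_mx (T := fun s => ⊤ * Q m 0 s) hsW
    omega
  have hfull : Full (W ^ (r - 1 + m)) := by
    intro ψ hψ v
    have hP1 := ((PF.const (W ^ (r-1))).mul (PF.Q m 0)).lo r
    have hP2 := ((PF.Q m 0).mul (PF.const (ln (vecMulVec ψ (fun _ : Fin D => (1:ℂ)))))).lo 1
    obtain ⟨s, hsW, h1, h2⟩ := hP1.exists hP2 W
      (by
        obtain ⟨s, h, h'⟩ := exists_mx W (fun s => W ^ (r-1) * Q m 0 s)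
        refine ⟨s, h, ?_⟩
        rw [h']
        have := hd (r-1) (by omega)
        omega)
      (hne ψ hψ)
    have h3 : W ^ (r-1) * Q m 0 s = ⊤ * Q m 0 s := by
      apply eq_of_le_of_fr_le (mul_le_mul' le_top le_rfl)
      exact (le_mx (T := fun s => ⊤ * Q m 0 s) hsW).trans h1
    obtain ⟨g, hg⟩ := Q_eq_ln m 0 s
    have hgψ : g *ᵥ ψ ≠ 0 := by
      intro h0
      rw [hg, ln_mul_ln, Matrix.mul_vecMulVec, h0] at h2
      simp only [zero_vecMulVec] at h2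
      unfold fr ln at h2
      rw [Submodule.span_zero_singleton, finrank_bot] at h2
      omega
    obtain ⟨C, -, hC⟩ := full_of_top (D := D) rfl (g *ᵥ ψ) hgψ v
    refine ⟨C * g, ?_, by rw [← Matrix.mulVec_mulVec, hC]⟩
    have h4 : C * g ∈ W ^ (r-1) * Q m 0 s := by
      rw [h3, hg]
      exact Submodule.mul_mem_mul trivial (mem_ln_self g)
    rw [pow_add]
    exact (mul_le_mul' le_rfl (Q_le hsW m 0)) h4
  apply Full.le hD _ hfull
  obtain ⟨m', rfl⟩ : ∃ m', m = m' + 1 := ⟨m - 1, by omega⟩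
  obtain ⟨d, rfl⟩ : ∃ d, D = d + 2 := ⟨D - 2, by omega⟩
  have e1 : (d+2) * (m'+1) = (d+1) * m' + m' + (d + 2) := by ring
  have e2 : m' ≤ (d+1) * m' := Nat.le_mul_of_pos_left m' (by omega)
  have e3 : (d+2) * (d+2) = d * d + 4 * d + 4 := by ring
  omega

end main1

end Singular

end Pool.Agent.Results.MP_8bfff4_mp.ExactValue
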