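import Mathlib
import Pool.Agent.Helper565.QWd

namespace Pool.Agent.Results.MP_8bfff4_mp.ExactValue

open Matrix

section Invertible

variable {D : ℕ} {W : Submodule ℂ (Matrix (Fin D) (Fin D) ℂ)}

/-- strict growth of the dimensions of the powers -/
lemma strict_growth (hD : 2 ≤ D) {p : ℕ} (hp : Full (W ^ p)) {X : Matrix (Fin D) (Fin D) ℂ}
    (hX : X ∈ W) (hXu : IsUnit X) {n : ℕ} (h : fr (W ^ (n+1)) ≤ fr (W ^ n)) : W ^ n = ⊤ := by
  have h1 : W ^ n * ln X = W ^ (n+1) := by
    apply eq_of_le_of_fr_le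
    · rw [pow_succ]; exact mul_le_mul' le_rfl (ln_le.2 hX)
    · rw [fr_mul_ln hXu]; exact h
  have h2 : ∀ k, W ^ (n+k) * ln X = W ^ (n+k+1) := by
    intro k
    induction k with
    | zero => exact h1
    | succ k ih =>
      rw [show n + (k+1) = (n+k) + 1 by ring, pow_succ' W (n+k), mul_assoc, ih, ← pow_succ']
  have h3 : ∀ k, fr (W ^ (n+k)) = fr (W ^ n) := by
    intro k
    induction k with
    | zero => rfl
    | succ k ih => rw [← ih, show n + (k+1) = (n+k) + 1 by ring, ← h2 k, fr_mul_ln hXu]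
  obtain ⟨N, hN⟩ := exists_top hD hp
  have h4 : W ^ (n+N) = ⊤ := top_le hD hp (Nat.le_add_left N n) hN
  apply eq_of_le_of_fr_le le_top
  rw [← h3 N, h4]

/-- the commutator map `C ↦ C X - X C` -/
noncomputable def adL (X : Matrix (Fin D) (Fin D) ℂ) :
    Matrix (Fin D) (Fin D) ℂ →ₗ[ℂ] Matrix (Fin D) (Fin D) ℂ :=
  LinearMap.mulRight ℂ X - LinearMap.mulLeft ℂ X

lemma adL_apply (X C : Matrix (Fin D) (Fin D) ℂ) : adL X C = C * X - X * C := rfl

lemma PF_ad : PF (fun s : ℕ → Matrix (Fin D) (Fin D) ℂ => LinearMap.range (adL (s 0))) := by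
  refine ⟨Fin D × Fin D, inferInstance, fun S i =>
    ((Matrix.single i.1 i.2 (1:ℂ)).map Polynomial.C) * S 0 -
      S 0 * ((Matrix.single i.1 i.2 (1:ℂ)).map Polynomial.C), ?_⟩
  intro S t
  simp only [map_sub, map_mul, ev_const]
  apply le_antisymm
  · rintro _ ⟨C, rfl⟩
    rw [Matrix.matrix_eq_sum_single C, map_sum]
    apply Submodule.sum_mem
    intro i _
    rw [map_sum]
    apply Submodule.sum_mem
    intro j _
    have : (Matrix.single i j (C i j) : Matrix (Fin D) (Fin D) ℂ)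
        = (C i j) • Matrix.single i j (1:ℂ) := by
      rw [Matrix.smul_single, smul_eq_mul, mul_one]
    rw [this, map_smul]
    apply Submodule.smul_mem
    apply Submodule.subset_span
    exact ⟨(i, j), rfl⟩
  · rw [Submodule.span_le]
    rintro _ ⟨i, rfl⟩
    exact ⟨Matrix.single i.1 i.2 1, rfl⟩

lemma PF_pow : PF (fun s : ℕ → Matrix (Fin D) (Fin D) ℂ =>
    Submodule.span ℂ (Set.range fun k : Fin D => (s 0) ^ (k:ℕ))) := by
  refine ⟨Fin D, inferInstance, fun S i => (S 0) ^ (i:ℕ), ?_⟩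
  intro S t
  simp only [map_pow]

lemma fr_pow_diag : fr (Submodule.span ℂ (Set.range fun k : Fin D =>
    (Matrix.diagonal (fun i : Fin D => ((i:ℕ):ℂ))) ^ (k:ℕ))) = D := by
  have hli : LinearIndependent ℂ (fun k : Fin D =>
      (Matrix.diagonal (fun i : Fin D => ((i:ℕ):ℂ))) ^ (k:ℕ)) := by
    rw [Fintype.linearIndependent_iff]
    intro g hg
    have h1 : (Matrix.vandermonde (fun i : Fin D => ((i:ℕ):ℂ))) *ᵥ g = 0 := by
      ext i
      have h2 := congrFun (congrFun hg i) i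
      simp only [Matrix.diagonal_pow, Matrix.sum_apply, Matrix.smul_apply, Matrix.diagonal_apply_eq,
        Pi.pow_apply, smul_eq_mul, Matrix.zero_apply] at h2
      simp only [Matrix.mulVec, dotProduct, Matrix.vandermonde_apply, Pi.zero_apply]
      rw [← h2]
      apply Finset.sum_congr rfl
      intro j _
      ring
    have hdet : (Matrix.vandermonde (fun i : Fin D => ((i:ℕ):ℂ))).det ≠ 0 := by
      rw [Matrix.det_vandermonde_ne_zero_iff]
      intro i j hij
      have : ((i:ℕ):ℂ) = ((j:ℕ):ℂ) := hij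
      exact Fin.ext (by exact_mod_cast this)
    intro i
    exact congrFun (Matrix.eq_zero_of_mulVec_eq_zero hdet h1) i
  have h3 := finrank_span_eq_card hli
  rw [Fintype.card_fin] at h3
  exact h3

/-- the centraliser of any matrix has dimension at least `D` -/
lemma fr_range_ad (X : Matrix (Fin D) (Fin D) ℂ) : fr (LinearMap.range (adL X)) + D ≤ D * D := by
  obtain ⟨s, -, h1, h2⟩ := (PF_ad (D := D).lo (fr (LinearMap.range (adL X)))).exists
    (PF_pow (D := D).lo D) ⊤ ⟨fun _ => X, fun _ => trivial, le_rfl⟩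
    ⟨fun _ => Matrix.diagonal (fun i : Fin D => ((i:ℕ):ℂ)), fun _ => trivial, by
      rw [fr_pow_diag]⟩
  have h3 := LinearMap.finrank_range_add_finrank_ker (adL (s 0))
  have h4 : Submodule.span ℂ (Set.range fun k : Fin D => (s 0) ^ (k:ℕ)) ≤ LinearMap.ker (adL (s 0)) := by
    rw [Submodule.span_le]
    rintro _ ⟨k, rfl⟩
    simp only [SetLike.mem_coe, LinearMap.mem_ker, adL_apply]
    rw [← pow_succ, ← pow_succ', sub_self]
  have h5 := fr_mono h4
  have h6 : Module.finrank ℂ (Matrix (Fin D) (Fin D) ℂ) = D * D := by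
    rw [Module.finrank_matrix]; simp
  unfold fr at *
  omega

/-- the counting inequality -/
lemma gen_count {X : Matrix (Fin D) (Fin D) ℂ} (hD : 2 ≤ D)
    (hX : X ∈ W) (hXu : IsUnit X) {N : ℕ} (hN : W ^ N = ⊤) {K : ℕ} (hK : K ≤ N)
    (h : ∀ i, 1 ≤ i → i < K → fr (W ^ i) < fr (ln X * W ^ i ⊔ W ^ i * ln X)) :
    K + D ≤ D * D + 1 := by
  obtain ⟨u, rfl⟩ := hXu
  set X : Matrix (Fin D) (Fin D) ℂ := (u : Matrix (Fin D) (Fin D) ℂ) with hXdef
  set Xi : Matrix (Fin D) (Fin D) ℂ := ((u⁻¹ : (Matrix (Fin D) (Fin D) ℂ)ˣ) : Matrix (Fin D) (Fin D) ℂ) with hXi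
  have hXX : Xi * X = 1 := Units.inv_mul u
  have hXX' : X * Xi = 1 := Units.mul_inv u
  have hXiu : ∀ n, IsUnit (Xi ^ n) := fun n => (Units.isUnit (u⁻¹)).pow n
  let R := LinearMap.range (adL X)
  let Z : ℕ → Submodule ℂ (Matrix (Fin D) (Fin D) ℂ) := fun n => ln (Xi ^ n) * W ^ n
  let q : ℕ → ℕ := fun n => Module.finrank ℂ ((Z n).map R.mkQ)
  have hstep : ∀ n, q (n+1) + fr (ln X * W ^ n ⊔ W ^ n * ln X) ≤ q n + fr (W ^ (n+1)) := by
    intro n
    have h1 : ln (Xi ^ (n+1)) * (ln X * W ^ n ⊔ W ^ n * ln X) ≤ Z (n+1) := by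
      apply mul_le_mul' le_rfl
      apply sup_le
      · rw [pow_succ']; exact mul_le_mul' (ln_le.2 hX) le_rfl
      · rw [pow_succ]; exact mul_le_mul' le_rfl (ln_le.2 hX)
    have h2 := finrank_map_add R.mkQ h1
    have h3 : fr (ln (Xi ^ (n+1)) * (ln X * W ^ n ⊔ W ^ n * ln X)) = fr (ln X * W ^ n ⊔ W ^ n * ln X) :=
      fr_ln_mul (hXiu _)
    have h4 : fr (Z (n+1)) = fr (W ^ (n+1)) := fr_ln_mul (hXiu _)
    have h5 : (ln (Xi ^ (n+1)) * (ln X * W ^ n ⊔ W ^ n * ln X)).map R.mkQ ≤ (Z n).map R.mkQ := by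
      rw [Submodule.mul_sup, Submodule.map_sup]
      apply sup_le
      · apply Submodule.map_mono
        rw [← mul_assoc, ln_mul_ln, pow_succ, mul_assoc, hXX, mul_one]
      · rintro _ ⟨c, hc, rfl⟩
        rw [← mul_assoc, SetLike.mem_coe, mem_mul_ln] at hc
        obtain ⟨d, hd, rfl⟩ := hc
        rw [pow_succ', ← ln_mul_ln, mul_assoc, mem_ln_mul] at hd
        obtain ⟨z, hz, rfl⟩ := hd
        refine ⟨z, hz, ?_⟩
        rw [eq_comm, ← sub_eq_zero, ← map_sub, Submodule.mkQ_apply, Submodule.Quotient.mk_eq_zero]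
        refine ⟨Xi * z, ?_⟩
        rw [adL_apply, ← mul_assoc X, hXX', one_mul]
    have h6 := Submodule.finrank_mono h5
    rw [h3, h4] at h2
    show Module.finrank ℂ ((Z (n+1)).map R.mkQ) + _ ≤ Module.finrank ℂ ((Z n).map R.mkQ) + _
    omega
  have hbase : q 0 ≤ fr (W ^ 0) := by
    have : Z 0 = W ^ 0 := by simp only [Z, pow_zero, ln_one, one_mul]
    show Module.finrank ℂ ((Z 0).map R.mkQ) ≤ _
    rw [this]
    exact Submodule.finrank_map_le _ _
  have hmono : ∀ n, fr (W ^ n) ≤ fr (ln X * W ^ n ⊔ W ^ n * ln X) := by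
    intro n
    calc fr (W ^ n) = fr (ln X * W ^ n) := (fr_ln_mul (Units.isUnit u)).symm
      _ ≤ _ := fr_mono le_sup_left
  have hclaim : ∀ n, n ≤ K → q n + (n - 1) ≤ fr (W ^ n) := by
    intro n
    induction n with
    | zero => intro _; simpa using hbase
    | succ n ih =>
      intro hn
      have h1 := ih (by omega)
      have h2 := hstep n
      have h3 := hmono n
      rcases Nat.eq_zero_or_pos n with h0 | h0
      · subst h0; simp only [zero_add, Nat.sub_self, add_zero] at *; omega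
      · have h4 := h n h0 (by omega)
        omega
  have hclaim2 : ∀ n, K ≤ n → q n + (K - 1) ≤ fr (W ^ n) := by
    intro n hn
    induction n, hn using Nat.le_induction with
    | base => exact hclaim K le_rfl
    | succ n hn ih =>
      have h2 := hstep n
      have h3 := hmono n
      omega
  have h1 := hclaim2 N hK
  have h2 : Z N = ⊤ := by
    apply eq_of_le_of_fr_le le_top
    show _ ≤ fr (ln (Xi ^ N) * W ^ N)
    rw [fr_ln_mul (hXiu _), hN]
  have h3 : q N = D * D - fr R := by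
    show Module.finrank ℂ ((Z N).map R.mkQ) = _
    rw [h2, Submodule.map_top, Submodule.range_mkQ, finrank_top]
    have h4 := Submodule.finrank_quotient_add_finrank R
    have h6 : Module.finrank ℂ (Matrix (Fin D) (Fin D) ℂ) = D * D := by
      rw [Module.finrank_matrix]; simp
    unfold fr
    omega
  have h4 := fr_range_ad X
  have h5 : fr (W ^ N) = D * D := by rw [hN, fr_top]
  have h6 : fr (LinearMap.range (adL X)) = fr R := rfl
  omega

end Invertible

end Pool.Agent.Results.MP_8bfff4_mp.ExactValue
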