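import Mathlib
import Pool.Agent.Helper565.QWe

namespace Pool.Agent.Results.MP_8bfff4_mp.ExactValue

open Matrix

section Tangent

variable {D : ℕ}

/-- descending products -/
def gp {A : Type*} [Monoid A] : ℕ → (ℕ → A) → A
  | 0, _ => 1
  | (n+1), s => s n * gp n s

lemma gp_congr {A : Type*} [Monoid A] (n : ℕ) {s s' : ℕ → A} (h : ∀ i, i < n → s i = s' i) :
    gp n s = gp n s' := by
  induction n with
  | zero => rfl
  | succ n ih =>
    rw [gp, gp, h n (Nat.lt_succ_self n), ih (fun i hi => h i (Nat.lt_succ_of_lt hi))]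

lemma map_gp {A B : Type*} [Semiring A] [Semiring B] (f : A →+* B) (n : ℕ) (s : ℕ → A) :
    f (gp n s) = gp n (fun i => f (s i)) := by
  induction n with
  | zero => exact map_one f
  | succ n ih => rw [gp, gp, map_mul, ih]

variable {W : Submodule ℂ (Matrix (Fin D) (Fin D) ℂ)}

lemma gp_mem {s : ℕ → Matrix (Fin D) (Fin D) ℂ} (hs : ∀ i, s i ∈ W) (n : ℕ) :
    gp n s ∈ W ^ n := by
  induction n with
  | zero => rw [pow_zero]; exact Submodule.one_le.1 le_rfl
  | succ n ih => rw [gp, pow_succ']; exact Submodule.mul_mem_mul (hs n) ih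

lemma pow_le_of_gp (n : ℕ) (U : Submodule ℂ (Matrix (Fin D) (Fin D) ℂ))
    (h : ∀ s : ℕ → Matrix (Fin D) (Fin D) ℂ, (∀ i, s i ∈ W) → gp n s ∈ U) : W ^ n ≤ U := by
  induction n generalizing U with
  | zero =>
    rw [pow_zero, Submodule.one_le]
    exact h (fun _ => 0) (fun _ => W.zero_mem)
  | succ n ih =>
    rw [pow_succ', Submodule.mul_le]
    intro A hA C hC
    have h1 : W ^ n ≤ U.comap (LinearMap.mulLeft ℂ A) := by
      apply ih
      intro s hs
      rw [Submodule.mem_comap, LinearMap.mulLeft_apply]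
      have h2 := h (Function.update s n A) (by
        intro i
        by_cases hi : i = n
        · subst hi; rw [Function.update_self]; exact hA
        · rw [Function.update_of_ne hi]; exact hs i)
      rw [gp, Function.update_self, gp_congr n (s' := s)
        (fun i hi => Function.update_of_ne (by omega) _ _)] at h2
      exact h2
    exact h1 hC

/-- the tangent spaces along products -/
def T (W : Submodule ℂ (Matrix (Fin D) (Fin D) ℂ)) :
    ℕ → (ℕ → Matrix (Fin D) (Fin D) ℂ) → Submodule ℂ (Matrix (Fin D) (Fin D) ℂ)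
  | 0, _ => ⊥
  | (n+1), s => ln (s n) * T W n s ⊔ W * ln (gp n s)

lemma T_succ (n : ℕ) (s : ℕ → Matrix (Fin D) (Fin D) ℂ) :
    T W (n+1) s = ln (s n) * T W n s ⊔ W * ln (gp n s) := rfl

lemma T_congr (n : ℕ) {s s' : ℕ → Matrix (Fin D) (Fin D) ℂ} (h : ∀ i, i < n → s i = s' i) :
    T W n s = T W n s' := by
  induction n with
  | zero => rfl
  | succ n ih =>
    rw [T_succ, T_succ, h n (Nat.lt_succ_self n), ih (fun i hi => h i (Nat.lt_succ_of_lt hi)),
      gp_congr n (fun i hi => h i (Nat.lt_succ_of_lt hi))]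

lemma T_le {s : ℕ → Matrix (Fin D) (Fin D) ℂ} (hs : ∀ i, s i ∈ W) (n : ℕ) :
    T W n s ≤ W ^ n := by
  induction n with
  | zero => exact bot_le
  | succ n ih =>
    rw [T_succ, pow_succ']
    apply sup_le
    · exact mul_le_mul' (ln_le.2 (hs n)) ih
    · exact mul_le_mul' le_rfl (ln_le.2 (gp_mem hs n))

lemma PF_gp (n : ℕ) : PF (fun s : ℕ → Matrix (Fin D) (Fin D) ℂ => ln (gp n s)) := by
  induction n with
  | zero => exact PF.const (ln 1)
  | succ n ih =>
    have : (fun s : ℕ → Matrix (Fin D) (Fin D) ℂ => ln (gp (n+1) s)) =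
        fun s => ln (s n) * ln (gp n s) := by
      funext s; rw [ln_mul_ln, gp]
    rw [this]
    exact (PF.coord n).mul ih

lemma PF_T (n : ℕ) : PF (fun s : ℕ → Matrix (Fin D) (Fin D) ℂ => T W n s) := by
  induction n with
  | zero => exact PF.const _
  | succ n ih => exact ((PF.coord n).mul ih).sup ((PF.const W).mul (PF_gp n))

lemma T_grow (hD : 2 ≤ D) {p : ℕ} (hp : Full (W ^ p)) {Y : Matrix (Fin D) (Fin D) ℂ}
    (hY : Y ∈ W) (hYu : IsUnit Y) {n : ℕ} (hn : W ^ n ≠ ⊤) :
    mx W (T W n) + 1 ≤ mx W (T W (n+1)) := by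
  by_contra hcon
  push Not at hcon
  have hle : mx W (T W (n+1)) ≤ mx W (T W n) := by omega
  apply hn
  apply strict_growth hD hp hY hYu
  have hkey : ∀ A ∈ W, W ^ n ≤ (ln Y * W ^ n).comap (LinearMap.mulLeft ℂ A) := by
    intro A hA
    apply pow_le_of_gp
    intro s' hs'
    rw [Submodule.mem_comap, LinearMap.mulLeft_apply]
    obtain ⟨s0, hs0W, hs0⟩ := exists_mx W (T W n)
    let s := Function.update s0 n Y
    let s'' := Function.update s' n Y
    have hsW : ∀ i, s i ∈ W := by
      intro i
      by_cases hi : i = n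
      · subst hi; simp only [s, Function.update_self]; exact hY
      · simp only [s, Function.update_of_ne hi]; exact hs0W i
    have hsW'' : ∀ i, s'' i ∈ W := by
      intro i
      by_cases hi : i = n
      · subst hi; simp only [s'', Function.update_self]; exact hY
      · simp only [s'', Function.update_of_ne hi]; exact hs' i
    have hT : fr (T W n s) = mx W (T W n) := by
      rw [← hs0]
      congr 1
      apply T_congr
      intro i hi
      exact Function.update_of_ne (by omega) _ _
    obtain ⟨q, hq, hq'⟩ := (PF_T (W := W) n).lo (mx W (T W n)) s s'' hT.ge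
    have h1 : ∀ t : ℂ, q.eval t ≠ 0 → ev t ((A.map Polynomial.C) * gp n (fun i => line (s i) (s'' i)))
        ∈ ln Y * W ^ n := by
      intro t ht
      have h2 := hq' t ht
      have hst : ∀ i, s i + t • (s'' i - s i) ∈ W := fun i =>
        W.add_mem (hsW i) (W.smul_mem _ (W.sub_mem (hsW'' i) (hsW i)))
      have hstn : s n + t • (s'' n - s n) = Y := by
        simp [s, s'']
      have h3 : ev t ((A.map Polynomial.C) * gp n (fun i => line (s i) (s'' i)))
          = A * gp n (fun i => s i + t • (s'' i - s i)) := by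
        rw [map_mul, ev_const]
        congr 1
        rw [map_gp]
        simp only [ev_line]
      rw [h3]
      have h4 : ln Y * T W n (fun i => s i + t • (s'' i - s i)) =
          T W (n+1) (fun i => s i + t • (s'' i - s i)) := by
        apply eq_of_le_of_fr_le
        · rw [T_succ, hstn]; exact le_sup_left
        · rw [fr_ln_mul hYu]
          exact ((le_mx hst).trans hle).trans h2
      have h5 : W * ln (gp n (fun i => s i + t • (s'' i - s i))) ≤
          ln Y * T W n (fun i => s i + t • (s'' i - s i)) := by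
        rw [h4, T_succ]; exact le_sup_right
      exact (mul_le_mul' le_rfl (T_le hst n)) (h5 (Submodule.mul_mem_mul hA (mem_ln_self _)))
    have h2 := curve_mem _ _ hq h1 1
    rw [map_mul, ev_const] at h2
    rw [map_gp] at h2
    simp only [ev_line] at h2
    have h4 : gp n (fun i => s i + (1:ℂ) • (s'' i - s i)) = gp n s' := by
      apply gp_congr
      intro i hi
      rw [one_smul, add_sub_cancel]
      exact Function.update_of_ne (by omega) _ _
    rw [h4] at h2
    exact h2
  calc fr (W ^ (n+1)) ≤ fr (ln Y * W ^ n) := by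
        apply fr_mono
        rw [pow_succ', Submodule.mul_le]
        intro A hA C hC
        exact hkey A hA hC
    _ = fr (W ^ n) := fr_ln_mul hYu

lemma T_bound (hD : 2 ≤ D) {p : ℕ} (hp : Full (W ^ p)) {Y : Matrix (Fin D) (Fin D) ℂ}
    (hY : Y ∈ W) (hYu : IsUnit Y) {N : ℕ} (hN : ∀ i, 1 ≤ i → i < N → W ^ i ≠ ⊤) (hN1 : 1 ≤ N) :
    fr W + (N - 1) ≤ mx W (T W N) := by
  induction N, hN1 using Nat.le_induction with
  | base =>
    have h1 := le_mx (W := W) (T := T W 1) (s := fun _ => 0) (fun _ => W.zero_mem)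
    have h2 : T W 1 (fun _ => 0) = W := by
      simp [T, gp, ln_one]
    rw [h2] at h1
    simpa using h1
  | succ n hn ih =>
    have h1 := ih (fun i hi hi' => hN i hi (by omega))
    have h2 := T_grow hD hp hY hYu (hN n hn (by omega))
    omega

lemma thmB (hD : 2 ≤ D) {p : ℕ} (hp : Full (W ^ p)) {Y : Matrix (Fin D) (Fin D) ℂ}
    (hY : Y ∈ W) (hYu : IsUnit Y) {N : ℕ} (hN : ∀ i, 1 ≤ i → i < N → W ^ i ≠ ⊤) (hN1 : 1 ≤ N)
    {q : Submodule ℂ (Matrix (Fin D) (Fin D) ℂ)}
    (hq1 : ∀ X ∈ W, IsUnit X → W ≤ ln X * q) (hq2 : ∀ X ∈ W, IsUnit X → q * ln X ≤ ln X * q) :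
    fr W + (N - 1) ≤ fr q := by
  obtain ⟨s, hsW, h1, h2⟩ := ((PF_T (W := W) N).lo (mx W (T W N))).exists
    (((PF.const (⊤ : Submodule ℂ (Matrix (Fin D) (Fin D) ℂ))).mul (PF_gp N)).lo (D * D)) W
    (by obtain ⟨s, h, h'⟩ := exists_mx W (T W N); exact ⟨s, h, h'.ge⟩)
    (by
      refine ⟨fun _ => Y, fun _ => hY, ?_⟩
      have : IsUnit (gp N (fun _ => Y)) := by
        clear hN hN1
        induction N with
        | zero => exact isUnit_one
        | succ n ih => exact hYu.mul ih
      rw [fr_mul_ln this, fr_top])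
  have hg : IsUnit (gp N s) := isUnit_of_fr (le_antisymm (fr_le _) h2)
  have hu : ∀ n, n ≤ N → IsUnit (gp n s) ∧ ∀ i, i < n → IsUnit (s i) := by
    have hdown : ∀ k, k ≤ N → IsUnit (gp (N - k) s) := by
      intro k
      induction k with
      | zero => intro _; exact hg
      | succ k ih =>
        intro hk
        have h3 := ih (by omega)
        have h4 : N - k = (N - (k+1)) + 1 := by omega
        rw [h4, gp, Matrix.isUnit_iff_isUnit_det, Matrix.det_mul, IsUnit.mul_iff] at h3
        exact (Matrix.isUnit_iff_isUnit_det _).2 h3.2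
    intro n hn
    refine ⟨?_, ?_⟩
    · have := hdown (N - n) (by omega)
      rwa [Nat.sub_sub_self hn] at this
    · intro i hi
      have h3 := hdown (N - (i+1)) (by omega)
      rw [Nat.sub_sub_self (by omega : i + 1 ≤ N), gp, Matrix.isUnit_iff_isUnit_det,
        Matrix.det_mul, IsUnit.mul_iff] at h3
      exact (Matrix.isUnit_iff_isUnit_det _).2 h3.1
  have hcomm : ∀ n, n ≤ N → q * ln (gp n s) ≤ ln (gp n s) * q := by
    intro n
    induction n with
    | zero => intro _; simp [gp, ln_one]
    | succ n ih =>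
      intro hn
      have h3 := ih (by omega)
      have h4 := hq2 (s n) (hsW n) ((hu (n+1) hn).2 n (Nat.lt_succ_self n))
      rw [gp, ← ln_mul_ln]
      calc q * (ln (s n) * ln (gp n s)) = (q * ln (s n)) * ln (gp n s) := by rw [mul_assoc]
        _ ≤ (ln (s n) * q) * ln (gp n s) := mul_le_mul' h4 le_rfl
        _ = ln (s n) * (q * ln (gp n s)) := by rw [mul_assoc]
        _ ≤ ln (s n) * (ln (gp n s) * q) := mul_le_mul' le_rfl h3
        _ = ln (s n) * ln (gp n s) * q := by rw [mul_assoc]
  have hTle : ∀ n, n ≤ N → T W n s ≤ ln (gp n s) * q := by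
    intro n
    induction n with
    | zero => intro _; exact bot_le
    | succ n ih =>
      intro hn
      have h3 := ih (by omega)
      have h4 := hq1 (s n) (hsW n) ((hu (n+1) hn).2 n (Nat.lt_succ_self n))
      rw [T_succ, gp, ← ln_mul_ln]
      apply sup_le
      · calc ln (s n) * T W n s ≤ ln (s n) * (ln (gp n s) * q) := mul_le_mul' le_rfl h3
          _ = _ := by rw [mul_assoc]
      · calc W * ln (gp n s) ≤ (ln (s n) * q) * ln (gp n s) := mul_le_mul' h4 le_rfl
          _ = ln (s n) * (q * ln (gp n s)) := by rw [mul_assoc]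
          _ ≤ ln (s n) * (ln (gp n s) * q) := mul_le_mul' le_rfl (hcomm n (by omega))
          _ = ln (s n) * ln (gp n s) * q := by rw [mul_assoc]
  calc fr W + (N - 1) ≤ mx W (T W N) := T_bound hD hp hY hYu hN hN1
    _ ≤ fr (T W N s) := h1
    _ ≤ fr (ln (gp N s) * q) := fr_mono (hTle N le_rfl)
    _ ≤ fr q := fr_ln_mul_le _ _

end Tangent

end Pool.Agent.Results.MP_8bfff4_mp.ExactValue
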