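import Mathlib
import Pool.Agent.Helper565.QWf

namespace Pool.Agent.Results.MP_8bfff4_mp.ExactValue

open Matrix

section LieStuff

variable {D : ℕ} {W : Submodule ℂ (Matrix (Fin D) (Fin D) ℂ)}

/-- the elementary rank one operator `u ⊗ η` -/
def rk (u η : Fin D → ℂ) : Matrix (Fin D) (Fin D) ℂ := vecMulVec u η

lemma rk_add_left (u v η : Fin D → ℂ) : rk (u + v) η = rk u η + rk v η := add_vecMulVec _ _ _

lemma rk_add_right (u η ξ : Fin D → ℂ) : rk u (η + ξ) = rk u η + rk u ξ := vecMulVec_add _ _ _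

lemma rk_smul_left (c : ℂ) (u η : Fin D → ℂ) : rk (c • u) η = c • rk u η := smul_vecMulVec _ _ _

lemma rk_smul_right (c : ℂ) (u η : Fin D → ℂ) : rk u (c • η) = c • rk u η := vecMulVec_smul _ _ _

lemma rk_mul_rk (u η v ζ : Fin D → ℂ) : rk u η * rk v ζ = (η ⬝ᵥ v) • rk u ζ := by
  unfold rk; rw [vecMulVec_mul_vecMulVec, vecMulVec_smul]

lemma mul_rk (x : Matrix (Fin D) (Fin D) ℂ) (u η : Fin D → ℂ) : x * rk u η = rk (x *ᵥ u) η :=
  mul_vecMulVec _ _ _

lemma rk_mul (x : Matrix (Fin D) (Fin D) ℂ) (u η : Fin D → ℂ) : rk u η * x = rk u (η ᵥ* x) :=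
  vecMulVec_mul _ _ _

lemma rk_mulVec (u η v : Fin D → ℂ) : rk u η *ᵥ v = (η ⬝ᵥ v) • u := by
  unfold rk
  rw [vecMulVec_mulVec]
  ext i
  simp [mul_comm]

/-- a vector outside a line can be separated from it -/
lemma exists_sep {u v : Fin D → ℂ} (h : ∀ c : ℂ, v ≠ c • u) : ∃ ξ : Fin D → ℂ, ξ ⬝ᵥ u = 0 ∧ ξ ⬝ᵥ v = 1 := by
  have h1 : v ∉ Submodule.span ℂ {u} := by
    intro h2
    obtain ⟨c, hc⟩ := Submodule.mem_span_singleton.1 h2
    exact h c hc.symm
  obtain ⟨f, hf1, hf2⟩ := Submodule.exists_le_ker_of_notMem h1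
  have hf : ∀ w : Fin D → ℂ, (fun i => f (Pi.single i 1)) ⬝ᵥ w = f w := by
    intro w
    conv_rhs => rw [pi_eq_sum_univ' w]
    rw [map_sum]
    simp only [dotProduct]
    apply Finset.sum_congr rfl
    intro i _
    rw [map_smul, smul_eq_mul, mul_comm]
  refine ⟨(f v)⁻¹ • (fun i => f (Pi.single i 1)), ?_, ?_⟩
  · rw [smul_dotProduct, hf]
    have : f u = 0 := hf2 (Submodule.mem_span_singleton_self u)
    rw [this, smul_zero]
  · rw [smul_dotProduct, hf, smul_eq_mul, inv_mul_cancel₀ hf1]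

lemma exists_dual {v : Fin D → ℂ} (h : v ≠ 0) : ∃ ξ : Fin D → ℂ, ξ ⬝ᵥ v = 1 := by
  obtain ⟨ξ, -, h2⟩ := exists_sep (u := (0 : Fin D → ℂ)) (v := v) (by intro c; rw [smul_zero]; exact h)
  exact ⟨ξ, h2⟩

/-- closed under commutators -/
def Br (S : Submodule ℂ (Matrix (Fin D) (Fin D) ℂ)) : Prop :=
  ∀ x ∈ S, ∀ y ∈ S, x * y - y * x ∈ S

/-- commutes with all the invertible elements of `W` -/
def St (W S : Submodule ℂ (Matrix (Fin D) (Fin D) ℂ)) : Prop :=
  ∀ X ∈ W, IsUnit X → ln X * S = S * ln X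

/-- elements of `W` are combinations of units of `W` -/
lemma unit_span {Y : Matrix (Fin D) (Fin D) ℂ} (hY : Y ∈ W) (hYu : IsUnit Y)
    {A : Matrix (Fin D) (Fin D) ℂ} (hA : A ∈ W) :
    ∃ X ∈ W, IsUnit X ∧ ∃ c c' : ℂ, A = c • X + c' • Y := by
  have h1 : Y.det ≠ 0 := ((Matrix.isUnit_iff_isUnit_det _).1 hYu).ne_zero
  have h2 : (line Y A).det ≠ 0 := by
    intro h0
    have h3 := RingHom.map_det (Polynomial.evalRingHom (0:ℂ)) (line Y A)
    rw [h0, map_zero] at h3
    have h4 : (Polynomial.evalRingHom (0:ℂ)).mapMatrix (line Y A) = ev 0 (line Y A) := rfl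
    rw [h4, ev_line, zero_smul, add_zero] at h3
    exact h1 h3.symm
  obtain ⟨t, ht⟩ := exists_eval_ne_zero (mul_ne_zero Polynomial.X_ne_zero h2)
  rw [Polynomial.eval_mul, Polynomial.eval_X] at ht
  have ht0 : t ≠ 0 := left_ne_zero_of_mul ht
  have h3 := RingHom.map_det (Polynomial.evalRingHom t) (line Y A)
  have h4 : (Polynomial.evalRingHom t).mapMatrix (line Y A) = ev t (line Y A) := rfl
  rw [h4, ev_line, Polynomial.coe_evalRingHom] at h3
  refine ⟨Y + t • (A - Y), W.add_mem hY (W.smul_mem _ (W.sub_mem hA hY)), ?_, t⁻¹, 1 - t⁻¹, ?_⟩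
  · rw [Matrix.isUnit_iff_isUnit_det, ← h3]
    exact (right_ne_zero_of_mul ht).isUnit
  · rw [smul_add, smul_smul, inv_mul_cancel₀ ht0, one_smul, sub_smul, one_smul]
    abel

/-- the main lemma: one non scalar `x` whose double brackets are swallowed forces all rank one
nilpotents -/
lemma rank_one_of {S : Submodule ℂ (Matrix (Fin D) (Fin D) ℂ)} (hD : 2 ≤ D) {p : ℕ}
    (hp : Full (W ^ p)) {Y : Matrix (Fin D) (Fin D) ℂ} (hY : Y ∈ W) (hYu : IsUnit Y)
    (hBr : Br S) (hSt : St W S) {x : Matrix (Fin D) (Fin D) ℂ} (hx : ∀ c : ℂ, x ≠ c • (1 : Matrix (Fin D) (Fin D) ℂ))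
    (hxx : ∀ g g' : Matrix (Fin D) (Fin D) ℂ,
      (x * (x * g - g * x) - (x * g - g * x) * x) * g' -
        g' * (x * (x * g - g * x) - (x * g - g * x) * x) ∈ S) :
    ∀ u η : Fin D → ℂ, η ⬝ᵥ u = 0 → rk u η ∈ S := by
  -- step 1
  have : Nonempty (Fin D) := ⟨⟨0, by omega⟩⟩
  obtain ⟨c, hc⟩ := Module.End.exists_eigenvalue (Matrix.toLin' x)
  obtain ⟨u0, hu0⟩ := hc.exists_hasEigenvector
  have hu1 : x *ᵥ u0 = c • u0 := by
    have := hu0.apply_eq_smul
    rwa [Matrix.toLin'_apply] at this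
  have hu2 : u0 ≠ 0 := hu0.2
  obtain ⟨z, hz⟩ : ∃ z, z = x - c • (1 : Matrix (Fin D) (Fin D) ℂ) := ⟨_, rfl⟩
  have hz0 : z ≠ 0 := fun h => hx c (sub_eq_zero.1 (hz.symm.trans h))
  have hzu : z *ᵥ u0 = 0 := by
    rw [hz]
    rw [Matrix.sub_mulVec, hu1, Matrix.smul_mulVec, Matrix.one_mulVec, sub_self]
  have hbr : ∀ g, x * g - g * x = z * g - g * z := by
    intro g
    rw [hz, sub_mul, mul_sub, smul_mul_assoc, mul_smul_comm, one_mul, mul_one]
    abel
  have hzz : ∀ g g', (z * (z * g - g * z) - (z * g - g * z) * z) * g' -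
        g' * (z * (z * g - g * z) - (z * g - g * z) * z) ∈ S := by
    intro g g'
    have := hxx g g'
    rw [hbr g, hbr] at this
    exact this
  -- step 2
  have hstep2 : ∃ u ζ : Fin D → ℂ, u ≠ 0 ∧ ζ ≠ 0 ∧ ζ ⬝ᵥ u = 0 ∧ ∀ g', rk u ζ * g' - g' * rk u ζ ∈ S := by
    by_cases hz2 : z * z = 0
    · obtain ⟨v, hv⟩ : ∃ v, z *ᵥ v ≠ 0 := by
        by_contra h
        push Not at h
        apply hz0
        apply Matrix.ext_of_mulVec_single
        intro i
        rw [h, Matrix.zero_mulVec]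
      obtain ⟨η, hη⟩ : ∃ η, η ᵥ* z ≠ 0 := by
        by_contra h
        push Not at h
        apply hz0
        apply Matrix.ext_of_single_vecMul
        intro i
        rw [h, Matrix.vecMul_zero]
      refine ⟨z *ᵥ v, (-2 : ℂ) • (η ᵥ* z), hv, smul_ne_zero (by norm_num) hη, ?_, ?_⟩
      · rw [smul_dotProduct, ← Matrix.dotProduct_mulVec, Matrix.mulVec_mulVec, hz2, Matrix.zero_mulVec,
          dotProduct_zero, smul_zero]
      · intro g'
        have h1 := hzz (rk v η) g'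
        have h2 : z * (z * rk v η - rk v η * z) - (z * rk v η - rk v η * z) * z
            = rk (z *ᵥ v) ((-2 : ℂ) • (η ᵥ* z)) := by
          rw [mul_sub, sub_mul, ← mul_assoc, hz2, zero_mul, mul_assoc (rk v η) z z, hz2, mul_zero,
            rk_smul_right, ← rk_mul, ← mul_rk]
          rw [← mul_assoc]
          module
        rw [h2] at h1
        exact h1
    · obtain ⟨η, hη⟩ : ∃ η, η ᵥ* (z * z) ≠ 0 := by
        by_contra h
        push Not at h
        apply hz2
        apply Matrix.ext_of_single_vecMul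
        intro i
        rw [h, Matrix.vecMul_zero]
      refine ⟨u0, η ᵥ* (z * z), hu2, hη, ?_, ?_⟩
      · rw [← Matrix.dotProduct_mulVec, ← Matrix.mulVec_mulVec, hzu, Matrix.mulVec_zero,
          dotProduct_zero]
      · intro g'
        have h1 := hzz (rk u0 η) g'
        have h2 : z * (z * rk u0 η - rk u0 η * z) - (z * rk u0 η - rk u0 η * z) * z
            = rk u0 (η ᵥ* (z * z)) := by
          have h3 : z * rk u0 η = 0 := by
            rw [mul_rk, hzu]
            ext i j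
            simp [rk, vecMulVec_apply]
          rw [h3, zero_sub, mul_neg, ← mul_assoc, h3, zero_mul, neg_zero, zero_sub, neg_mul, neg_neg,
            mul_assoc, rk_mul]
        rw [h2] at h1
        exact h1
  obtain ⟨u, ζ, hu, hζ, hζu, hy⟩ := hstep2
  -- step 3
  have hstep3 : ∀ η : Fin D → ℂ, η ⬝ᵥ u = 0 → rk u η ∈ S := by
    intro η hη
    obtain ⟨v, hv⟩ := exists_dual hζ
    have h1 := hy (rk v η)
    rw [rk_mul_rk, rk_mul_rk, hη, zero_smul, sub_zero, dotProduct_comm, hv, one_smul] at h1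
    exact h1
  -- step 4
  let 𝒰 : Submodule ℂ (Fin D → ℂ) :=
    { carrier := {u | ∀ η : Fin D → ℂ, η ⬝ᵥ u = 0 → rk u η ∈ S}
      zero_mem' := by
        intro η _
        have : rk 0 η = (0 : Matrix (Fin D) (Fin D) ℂ) := by
          ext i j
          simp [rk, vecMulVec_apply]
        rw [this]
        exact S.zero_mem
      smul_mem' := by
        intro a w hw η hη
        rw [rk_smul_left]
        by_cases ha : a = 0
        · rw [ha, zero_smul]; exact S.zero_mem
        · apply S.smul_mem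
          apply hw
          rw [dotProduct_smul] at hη
          exact (smul_eq_zero.1 hη).resolve_left ha
      add_mem' := by
        intro u1 u2 h1 h2 η hη
        by_cases hdep : ∀ c : ℂ, u2 ≠ c • u1
        · obtain ⟨ξ, hξ1, hξ2⟩ := exists_sep hdep
          have e1 : (η + (η ⬝ᵥ u1) • ξ) ⬝ᵥ u2 = 0 := by
            rw [add_dotProduct, smul_dotProduct, hξ2, smul_eq_mul, mul_one, add_comm,
              ← dotProduct_add]
            exact hη
          have e2 : (η + (η ⬝ᵥ u1) • ξ) ⬝ᵥ u1 = η ⬝ᵥ u1 := by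
            rw [add_dotProduct, smul_dotProduct, hξ1, smul_zero, add_zero]
          have h3 := h1 ξ hξ1
          have h4 := h2 _ e1
          have h5 := hBr _ h3 _ h4
          rw [rk_mul_rk, rk_mul_rk, hξ2, e2, one_smul, rk_add_right, rk_smul_right] at h5
          rw [rk_add_right, rk_smul_right] at h4
          have h6 := S.add_mem (S.sub_mem h5 (S.smul_mem (η ⬝ᵥ u1) h3)) h4
          rw [rk_add_left]
          convert h6 using 1
          abel
        · push Not at hdep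
          obtain ⟨c, rfl⟩ := hdep
          have e3 : u1 + c • u1 = (1 + c) • u1 := by rw [add_smul, one_smul]
          rw [e3] at hη ⊢
          rw [rk_smul_left]
          by_cases ha : (1 + c) = 0
          · rw [ha, zero_smul]; exact S.zero_mem
          · apply S.smul_mem
            apply h1
            rw [dotProduct_smul] at hη
            exact (smul_eq_zero.1 hη).resolve_left ha }
  -- step 5
  have hunit : ∀ X ∈ W, IsUnit X → ∀ w ∈ 𝒰, X *ᵥ w ∈ 𝒰 := by
    intro X hX hXu w hw η hη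
    have h1 : rk w (η ᵥ* X) ∈ S := by
      apply hw
      rw [← Matrix.dotProduct_mulVec]; exact hη
    have h2 : X * rk w (η ᵥ* X) ∈ S * ln X := by
      rw [← hSt X hX hXu]
      exact Submodule.mul_mem_mul (mem_ln_self X) h1
    obtain ⟨s, hs, hs'⟩ := mem_mul_ln.1 h2
    rw [← rk_mul, ← mul_assoc, mul_rk] at hs'
    have h3 : s = rk (X *ᵥ w) η := hXu.mul_right_cancel hs'
    rw [← h3]; exact hs
  -- step 6
  have hW : ∀ A ∈ W, ∀ w ∈ 𝒰, A *ᵥ w ∈ 𝒰 := by
    intro A hA w hw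
    obtain ⟨X, hX, hXu, a, b, rfl⟩ := unit_span hY hYu hA
    rw [Matrix.add_mulVec, Matrix.smul_mulVec, Matrix.smul_mulVec]
    exact 𝒰.add_mem (𝒰.smul_mem _ (hunit X hX hXu w hw)) (𝒰.smul_mem _ (hunit Y hY hYu w hw))
  have hWp : ∀ n, ∀ A ∈ W ^ n, ∀ w ∈ 𝒰, A *ᵥ w ∈ 𝒰 := by
    intro n
    induction n with
    | zero =>
      intro A hA w hw
      rw [pow_zero, Submodule.mem_one] at hA
      obtain ⟨a, rfl⟩ := hA
      rw [Algebra.algebraMap_eq_smul_one, Matrix.smul_mulVec, Matrix.one_mulVec]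
      exact 𝒰.smul_mem _ hw
    | succ n ih =>
      intro A hA w hw
      rw [pow_succ] at hA
      induction hA using Submodule.mul_induction_on' with
      | mem_mul_mem m hm n hn => rw [← Matrix.mulVec_mulVec]; exact ih m hm _ (hW n hn w hw)
      | add x hx y hy h1 h2 => rw [Matrix.add_mulVec]; exact 𝒰.add_mem h1 h2
  have htop : ∀ w, w ∈ 𝒰 := by
    intro w
    obtain ⟨C, hC, rfl⟩ := hp u hu w
    exact hWp p C hC u hstep3
  intro w η h
  exact htop w η h

lemma full_of_rank_one {S : Submodule ℂ (Matrix (Fin D) (Fin D) ℂ)} (hD : 2 ≤ D)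
    (h : ∀ u η : Fin D → ℂ, η ⬝ᵥ u = 0 → rk u η ∈ S) : Full S := by
  have h1 : ∀ ψ : Fin D → ℂ, ψ ≠ 0 → ∀ v : Fin D → ℂ, (∀ c : ℂ, ψ ≠ c • v) → ∃ C ∈ S, C *ᵥ ψ = v := by
    intro ψ hψ v hv
    obtain ⟨ξ, hξ1, hξ2⟩ := exists_sep hv
    exact ⟨rk v ξ, h v ξ hξ1, by rw [rk_mulVec, hξ2, one_smul]⟩
  intro ψ hψ v
  by_cases hv : ∀ c : ℂ, ψ ≠ c • v
  · exact h1 ψ hψ v hv
  · push Not at hv
    obtain ⟨c, hc⟩ := hv
    have hc0 : c ≠ 0 := by
      rintro rfl
      rw [zero_smul] at hc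
      exact hψ hc
    obtain ⟨w, hw⟩ := exists_not_prop hD ψ
    have hw1 : ∀ a : ℂ, ψ ≠ a • w := by
      intro a ha
      have ha0 : a ≠ 0 := by
        rintro rfl
        rw [zero_smul] at ha
        exact hψ ha
      apply hw a⁻¹
      rw [ha, smul_smul, inv_mul_cancel₀ ha0, one_smul]
    have hw2 : ∀ a : ℂ, ψ ≠ a • (v + w) := by
      intro a ha
      have ha0 : a ≠ 0 := by
        rintro rfl
        rw [zero_smul] at ha
        exact hψ ha
      apply hw (a⁻¹ - c⁻¹)
      have e1 : v = c⁻¹ • ψ := by rw [hc, smul_smul, inv_mul_cancel₀ hc0, one_smul]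
      have e2 : v + w = a⁻¹ • ψ := by
        conv_rhs => rw [ha]
        rw [smul_smul, inv_mul_cancel₀ ha0, one_smul]
      rw [sub_smul, ← e1, ← e2]
      abel
    obtain ⟨C1, hC1, hC1'⟩ := h1 ψ hψ _ hw1
    obtain ⟨C2, hC2, hC2'⟩ := h1 ψ hψ _ hw2
    refine ⟨C2 - C1, S.sub_mem hC2 hC1, ?_⟩
    rw [Matrix.sub_mulVec, hC1', hC2']
    abel

lemma top_of_rank_one {S : Submodule ℂ (Matrix (Fin D) (Fin D) ℂ)} (hD : 2 ≤ D)
    (h : ∀ u η : Fin D → ℂ, η ⬝ᵥ u = 0 → rk u η ∈ S) : S ⊔ ln 1 = ⊤ := by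
  have hDc : (D : ℂ) ≠ 0 := by
    have : D ≠ 0 := by omega
    exact_mod_cast this
  have hsg : ∀ i j : Fin D, rk (Pi.single i 1) (Pi.single j 1) = Matrix.single i j (1:ℂ) := by
    intro i j
    ext a b
    simp only [rk, vecMulVec_apply, Matrix.single_apply, Pi.single_apply]
    simp only [@eq_comm _ a i, @eq_comm _ b j]
    by_cases ha : i = a <;> by_cases hb : j = b <;> simp [ha, hb]
  have hoff : ∀ i j : Fin D, i ≠ j → Matrix.single i j (1:ℂ) ∈ S := by
    intro i j hij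
    have h1 := h (Pi.single i 1) (Pi.single j 1) (by
      rw [single_dotProduct, Pi.single_eq_of_ne hij.symm, mul_zero])
    rw [← hsg]; exact h1
  have hdiag : ∀ i j : Fin D, Matrix.single i i (1:ℂ) - Matrix.single j j (1:ℂ) ∈ S := by
    intro i j
    by_cases hij : i = j
    · subst hij; rw [sub_self]; exact S.zero_mem
    · have h1 := h (Pi.single i 1 + Pi.single j 1) (Pi.single i 1 - Pi.single j 1) (by
        simp [hij, Ne.symm hij])
      have h2 : rk (Pi.single i 1 + Pi.single j 1) (Pi.single i 1 - Pi.single j 1) =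
          Matrix.single i i (1:ℂ) - Matrix.single i j 1 + Matrix.single j i 1 - Matrix.single j j 1 := by
        rw [sub_eq_add_neg, ← neg_one_smul ℂ (Pi.single j (1:ℂ) : Fin D → ℂ), rk_add_right, rk_smul_right,
          rk_add_left, rk_add_left, hsg, hsg, hsg, hsg]
        module
      rw [h2] at h1
      have h3 := S.add_mem h1 (S.sub_mem (hoff i j hij) (hoff j i (Ne.symm hij)))
      convert h3 using 1
      abel
  have hii : ∀ i : Fin D, Matrix.single i i (1:ℂ) ∈ S ⊔ ln 1 := by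
    intro i
    have h1 : ∑ j, (Matrix.single i i (1:ℂ) - Matrix.single j j (1:ℂ)) ∈ S :=
      Submodule.sum_mem _ (fun j _ => hdiag i j)
    rw [Finset.sum_sub_distrib, Finset.sum_const, Finset.card_univ, Fintype.card_fin] at h1
    have h2 : ∑ j : Fin D, Matrix.single j j (1:ℂ) = (1 : Matrix (Fin D) (Fin D) ℂ) := by
      ext a b
      rw [Matrix.sum_apply, Matrix.one_apply]
      simp only [Matrix.single_apply]
      by_cases hab : a = b
      · subst hab; simp
      · rw [if_neg hab]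
        apply Finset.sum_eq_zero
        intro j _
        rw [if_neg]
        rintro ⟨rfl, rfl⟩
        exact hab rfl
    rw [h2] at h1
    have h3 : D • Matrix.single i i (1:ℂ) ∈ S ⊔ ln (1 : Matrix (Fin D) (Fin D) ℂ) := by
      have h4 := Submodule.add_mem (S ⊔ ln (1 : Matrix (Fin D) (Fin D) ℂ))
        (Submodule.mem_sup_left h1) (Submodule.mem_sup_right (mem_ln_self 1))
      rwa [sub_add_cancel] at h4
    have h5 := (S ⊔ ln (1 : Matrix (Fin D) (Fin D) ℂ)).smul_mem ((D:ℂ)⁻¹) h3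
    rw [← Nat.cast_smul_eq_nsmul ℂ, smul_smul, inv_mul_cancel₀ hDc, one_smul] at h5
    exact h5
  rw [eq_top_iff]
  intro M _
  rw [Matrix.matrix_eq_sum_single M]
  apply Submodule.sum_mem
  intro i _
  apply Submodule.sum_mem
  intro j _
  have : (Matrix.single i j (M i j) : Matrix (Fin D) (Fin D) ℂ)
      = (M i j) • Matrix.single i j (1:ℂ) := by
    rw [Matrix.smul_single, smul_eq_mul, mul_one]
  rw [this]
  apply Submodule.smul_mem
  by_cases hij : i = j
  · subst hij; exact hii i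
  · exact Submodule.mem_sup_left (hoff i j hij)

lemma fr_of_rank_one {S : Submodule ℂ (Matrix (Fin D) (Fin D) ℂ)} (hD : 2 ≤ D)
    (h : ∀ u η : Fin D → ℂ, η ⬝ᵥ u = 0 → rk u η ∈ S) : D * D ≤ fr S + 1 := by
  have h1 := top_of_rank_one hD h
  have h2 := Submodule.finrank_add_le_finrank_add_finrank S (ln 1)
  have h3 : fr (ln (1 : Matrix (Fin D) (Fin D) ℂ)) ≤ 1 := by
    unfold fr ln
    exact (finrank_span_le_card _).trans (by simp)
  have h4 : fr (S ⊔ ln 1) = D * D := by rw [h1, fr_top]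
  unfold fr at *
  omega

end LieStuff

end Pool.Agent.Results.MP_8bfff4_mp.ExactValue
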