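import Mathlib
import Pool.Agent.Helper565.QWg

namespace Pool.Agent.Results.MP_8bfff4_mp.ExactValue

open Matrix

section Normaliser

variable {D : ℕ} {W : Submodule ℂ (Matrix (Fin D) (Fin D) ℂ)}

/-- a proper bracket closed subspace containing the identity, stable under conjugation by the
units of `W`, has codimension at least `D` -/
lemma proper_codim (hD : 2 ≤ D) {p : ℕ}
    (hp : Full (W ^ p)) {Y : Matrix (Fin D) (Fin D) ℂ} (hY : Y ∈ W) (hYu : IsUnit Y)
    {q : Submodule ℂ (Matrix (Fin D) (Fin D) ℂ)} (hBr : Br q) (hSt : St W q)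
    (h1 : (1 : Matrix (Fin D) (Fin D) ℂ) ∈ q) (hq : q ≠ ⊤) : fr q + D ≤ D * D := by
  -- the scalars
  have hker : ∀ x ∈ q, (∀ g : Matrix (Fin D) (Fin D) ℂ, g * x - x * g ∈ q) →
      ∃ c : ℂ, x = c • (1 : Matrix (Fin D) (Fin D) ℂ) := by
    intro x hx hxg
    by_contra hcon
    push Not at hcon
    apply hq
    have h2 := rank_one_of hD hp hY hYu hBr hSt hcon (by
      intro g g'
      have e1 : x * g - g * x ∈ q := by
        have := q.neg_mem (hxg g)
        rwa [neg_sub] at this
      have e2 : x * g' - g' * x ∈ q := by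
        have := q.neg_mem (hxg g')
        rwa [neg_sub] at this
      have e3 : x * ((x * g - g * x) * g' - g' * (x * g - g * x)) -
          ((x * g - g * x) * g' - g' * (x * g - g * x)) * x ∈ q := by
        have := q.neg_mem (hxg ((x * g - g * x) * g' - g' * (x * g - g * x)))
        rwa [neg_sub] at this
      have e4 := hBr _ e1 _ e2
      have e5 := q.sub_mem e3 e4
      convert e5 using 1
      noncomm_ring)
    have h3 := top_of_rank_one hD h2
    rw [← h3]
    apply le_antisymm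
    · exact le_sup_left
    · exact sup_le le_rfl (ln_le.2 h1)
  let φ : q →ₗ[ℂ] ((Matrix (Fin D) (Fin D) ℂ ⧸ q) →ₗ[ℂ] (Matrix (Fin D) (Fin D) ℂ ⧸ q)) :=
    { toFun := fun x => q.mapQ q (adL x.1) (by
        intro y hy
        rw [Submodule.mem_comap, adL_apply]
        exact hBr _ hy _ x.2)
      map_add' := by
        intro x y
        apply LinearMap.ext
        intro z
        obtain ⟨g, rfl⟩ := q.mkQ_surjective z
        rw [LinearMap.add_apply]
        simp only [Submodule.mkQ_apply, Submodule.mapQ_apply, adL_apply]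
        rw [← Submodule.Quotient.mk_add]
        congr 1
        simp only [Submodule.coe_add]
        noncomm_ring
      map_smul' := by
        intro c x
        apply LinearMap.ext
        intro z
        obtain ⟨g, rfl⟩ := q.mkQ_surjective z
        rw [LinearMap.smul_apply]
        simp only [Submodule.mkQ_apply, Submodule.mapQ_apply, adL_apply]
        rw [← Submodule.Quotient.mk_smul]
        congr 1
        simp only [Submodule.coe_smul, RingHom.id_apply]
        rw [smul_sub, mul_smul_comm, smul_mul_assoc] }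
  have hφ : ∀ x ∈ LinearMap.ker φ, ∃ c : ℂ, x.1 = c • (1 : Matrix (Fin D) (Fin D) ℂ) := by
    intro x hx
    apply hker x.1 x.2
    intro g
    rw [LinearMap.mem_ker] at hx
    have h2 := LinearMap.congr_fun hx (Submodule.Quotient.mk g)
    have h3 : φ x (Submodule.Quotient.mk g) = Submodule.Quotient.mk (g * x.1 - x.1 * g) := rfl
    rw [h3, LinearMap.zero_apply, Submodule.Quotient.mk_eq_zero] at h2
    exact h2
  have hk1 : Module.finrank ℂ (LinearMap.ker φ) ≤ 1 := by
    apply finrank_le_one (⟨⟨1, h1⟩, by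
      rw [LinearMap.mem_ker]
      apply LinearMap.ext
      intro z
      obtain ⟨g, rfl⟩ := q.mkQ_surjective z
      have h3 : φ ⟨1, h1⟩ (Submodule.Quotient.mk g) =
        Submodule.Quotient.mk (g * (1 : Matrix (Fin D) (Fin D) ℂ) - 1 * g) := rfl
      rw [Submodule.mkQ_apply, h3, mul_one, one_mul, sub_self]
      rfl⟩ : LinearMap.ker φ)
    intro x
    obtain ⟨c, hc⟩ := hφ x.1 x.2
    refine ⟨c, ?_⟩
    apply Subtype.ext
    apply Subtype.ext
    exact hc.symm
  have h2 := LinearMap.finrank_range_add_finrank_ker φ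
  have h3 := Submodule.finrank_le (LinearMap.range φ)
  rw [Module.finrank_linearMap] at h3
  have h4 := Submodule.finrank_quotient_add_finrank q
  have h6 : Module.finrank ℂ (Matrix (Fin D) (Fin D) ℂ) = D * D := by
    rw [Module.finrank_matrix]; simp
  rw [h6] at h4
  set c := Module.finrank ℂ (Matrix (Fin D) (Fin D) ℂ ⧸ q) with hc
  have h7 : fr q ≤ 1 + c * c := by
    unfold fr
    omega
  have h8 : c + fr q = D * D := h4
  by_contra hcon
  push Not at hcon
  have h9 : c + 1 ≤ D := by omega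
  have h10 : D * D ≤ c + 1 + c * c := by omega
  have h11 := Nat.mul_le_mul h9 h9
  have h12 : (c + 1) * (c + 1) = c * c + 2 * c + 1 := by ring
  have h13 : c = 0 := by omega
  rw [h13] at h10
  have h14 := Nat.mul_le_mul hD hD
  omega

/-- the normaliser of `S` -/
def nrm (S : Submodule ℂ (Matrix (Fin D) (Fin D) ℂ)) : Submodule ℂ (Matrix (Fin D) (Fin D) ℂ) where
  carrier := {C | ∀ B ∈ S, C * B - B * C ∈ S}
  zero_mem' := by
    intro B _
    simp
  add_mem' := by
    intro x y hx hy B hB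
    have := S.add_mem (hx B hB) (hy B hB)
    convert this using 1
    noncomm_ring
  smul_mem' := by
    intro c x hx B hB
    have := S.smul_mem c (hx B hB)
    rwa [smul_sub, ← smul_mul_assoc, ← mul_smul_comm] at this

lemma mem_nrm {S : Submodule ℂ (Matrix (Fin D) (Fin D) ℂ)} {C : Matrix (Fin D) (Fin D) ℂ} :
    C ∈ nrm S ↔ ∀ B ∈ S, C * B - B * C ∈ S := Iff.rfl

lemma nrm_br (S : Submodule ℂ (Matrix (Fin D) (Fin D) ℂ)) : Br (nrm S) := by
  intro x hx y hy B hB
  have e1 := hx _ (hy B hB)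
  have e2 := hy _ (hx B hB)
  have e3 := S.sub_mem e1 e2
  convert e3 using 1
  noncomm_ring

lemma one_mem_nrm (S : Submodule ℂ (Matrix (Fin D) (Fin D) ℂ)) :
    (1 : Matrix (Fin D) (Fin D) ℂ) ∈ nrm S := by
  intro B _
  simp

lemma nrm_st {S : Submodule ℂ (Matrix (Fin D) (Fin D) ℂ)} (hS : St W S) : St W (nrm S) := by
  intro X hX hXu
  have h1 := hS X hX hXu
  apply eq_of_le_of_fr_le
  · intro z hz
    obtain ⟨C, hC, rfl⟩ := mem_ln_mul.1 hz
    rw [mem_mul_ln]
    obtain ⟨u, rfl⟩ := hXu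
    refine ⟨(u : Matrix (Fin D) (Fin D) ℂ) * C * ((u⁻¹ : (Matrix (Fin D) (Fin D) ℂ)ˣ) :
      Matrix (Fin D) (Fin D) ℂ), ?_, ?_⟩
    · intro B hB
      have h2 : B * (u : Matrix (Fin D) (Fin D) ℂ) ∈ ln (u : Matrix (Fin D) (Fin D) ℂ) * S := by
        rw [h1]; exact Submodule.mul_mem_mul hB (mem_ln_self _)
      obtain ⟨s, hs, hs'⟩ := mem_ln_mul.1 h2
      have h3 : (u : Matrix (Fin D) (Fin D) ℂ) * (C * s - s * C) ∈ S * ln (u : Matrix (Fin D) (Fin D) ℂ) := by
        rw [← h1]; exact Submodule.mul_mem_mul (mem_ln_self _) (hC s hs)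
      obtain ⟨s', hs1, hs2⟩ := mem_mul_ln.1 h3
      have h4 : (u : Matrix (Fin D) (Fin D) ℂ) * C * ((u⁻¹ : (Matrix (Fin D) (Fin D) ℂ)ˣ) :
          Matrix (Fin D) (Fin D) ℂ) * B - B * ((u : Matrix (Fin D) (Fin D) ℂ) * C *
          ((u⁻¹ : (Matrix (Fin D) (Fin D) ℂ)ˣ) : Matrix (Fin D) (Fin D) ℂ)) = s' := by
        have h5 : B = (u : Matrix (Fin D) (Fin D) ℂ) * s * ((u⁻¹ : (Matrix (Fin D) (Fin D) ℂ)ˣ) :
          Matrix (Fin D) (Fin D) ℂ) := by
          rw [hs', mul_assoc, Units.mul_inv, mul_one]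
        have h6 : s' = (u : Matrix (Fin D) (Fin D) ℂ) * (C * s - s * C) *
            ((u⁻¹ : (Matrix (Fin D) (Fin D) ℂ)ˣ) : Matrix (Fin D) (Fin D) ℂ) := by
          rw [← hs2, mul_assoc, Units.mul_inv, mul_one]
        rw [h6, h5]
        simp only [mul_assoc, Units.inv_mul_cancel_left, mul_sub, sub_mul]
      rw [h4]; exact hs1
    · rw [mul_assoc, Units.inv_mul, mul_one]
  · rw [fr_mul_ln hXu, fr_ln_mul hXu]

/-- the elements `X⁻¹ A` normalise -/
lemma nrm_le {S : Submodule ℂ (Matrix (Fin D) (Fin D) ℂ)} (hS : St W S)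
    {X : Matrix (Fin D) (Fin D) ℂ} (hX : X ∈ W) (hXu : IsUnit X) : W ≤ ln X * nrm S := by
  intro A hA
  have hSX := hS X hX hXu
  obtain ⟨u, hu⟩ := hXu
  obtain ⟨Xi, hXi⟩ : ∃ Xi, Xi = ((u⁻¹ : (Matrix (Fin D) (Fin D) ℂ)ˣ) : Matrix (Fin D) (Fin D) ℂ) := ⟨_, rfl⟩
  have e1 : X * Xi = 1 := by rw [hXi, ← hu, Units.mul_inv]
  have e2 : Xi * X = 1 := by rw [hXi, ← hu, Units.inv_mul]
  rw [mem_ln_mul]
  refine ⟨Xi * A, ?_, by rw [← mul_assoc, e1, one_mul]⟩
  intro B hB
  -- B0
  have h1 : X * B ∈ S * ln X := by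
    rw [← hSX]; exact Submodule.mul_mem_mul (mem_ln_self _) hB
  obtain ⟨B0, hB0, hB0'⟩ := mem_mul_ln.1 h1
  obtain ⟨C, hC⟩ : ∃ C, C = A * B - B0 * A := ⟨_, rfl⟩
  have hdet0 : X.det ≠ 0 := by
    have : IsUnit X := ⟨u, hu⟩
    exact ((Matrix.isUnit_iff_isUnit_det _).1 this).ne_zero
  have hdet : ∀ t, (line X (X + A)).det.eval t = (X + t • A).det := by
    intro t
    have h3 := RingHom.map_det (Polynomial.evalRingHom t) (line X (X + A))
    have h4 : (Polynomial.evalRingHom t).mapMatrix (line X (X + A)) = ev t (line X (X + A)) := rfl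
    rw [h4, ev_line, Polynomial.coe_evalRingHom, add_sub_cancel_left] at h3
    exact h3
  have hpne : Polynomial.X * (line X (X + A)).det ≠ 0 := by
    apply mul_ne_zero Polynomial.X_ne_zero
    intro h0
    have := hdet 0
    rw [h0, Polynomial.eval_zero, zero_smul, add_zero] at this
    exact hdet0 this.symm
  have hev : ∀ t, ev t ((C.map Polynomial.C) * (line X (X + A)).adjugate) = C * (X + t • A).adjugate := by
    intro t
    rw [map_mul, ev_const]
    have h5 := RingHom.map_adjugate (Polynomial.evalRingHom t) (line X (X + A))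
    have h4 : (Polynomial.evalRingHom t).mapMatrix (line X (X + A)) = ev t (line X (X + A)) := rfl
    rw [h4, ev_line, add_sub_cancel_left] at h5
    congr 1
  have hmem := curve_mem S ((C.map Polynomial.C) * (line X (X + A)).adjugate) hpne (by
    intro t ht
    rw [Polynomial.eval_mul, Polynomial.eval_X, hdet] at ht
    have ht0 : t ≠ 0 := left_ne_zero_of_mul ht
    have htd : (X + t • A).det ≠ 0 := right_ne_zero_of_mul ht
    have htu : IsUnit (X + t • A) := (Matrix.isUnit_iff_isUnit_det _).2 htd.isUnit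
    have htW : X + t • A ∈ W := W.add_mem hX (W.smul_mem _ hA)
    have h6 : (X + t • A) * B ∈ S * ln (X + t • A) := by
      rw [← hS _ htW htu]; exact Submodule.mul_mem_mul (mem_ln_self _) hB
    obtain ⟨Bt, hBt, hBt'⟩ := mem_mul_ln.1 h6
    have h7 : t • C = (Bt - B0) * (X + t • A) := by
      rw [sub_mul, hBt', hC, add_mul, mul_add, ← hB0', smul_sub, smul_mul_assoc, mul_smul_comm]
      abel
    have h8 : C * (X + t • A).adjugate = (t⁻¹ * (X + t • A).det) • (Bt - B0) := by
      have h9 : C = t⁻¹ • ((Bt - B0) * (X + t • A)) := by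
        rw [← h7, smul_smul, inv_mul_cancel₀ ht0, one_smul]
      rw [h9, smul_mul_assoc, mul_assoc, Matrix.mul_adjugate, mul_smul_comm, mul_one, smul_smul]
    rw [hev, h8]
    exact S.smul_mem _ (S.sub_mem hBt hB0)) 0
  rw [hev, zero_smul, add_zero] at hmem
  -- C * Xi in S
  have h10 : C * Xi ∈ S := by
    have h11 : C * Xi = (X.det)⁻¹ • (C * X.adjugate) := by
      have h12 : X.adjugate = X.det • Xi := by
        have h13 := Matrix.mul_adjugate X
        calc X.adjugate = (Xi * X) * X.adjugate := by rw [e2, one_mul]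
          _ = Xi * (X * X.adjugate) := by rw [mul_assoc]
          _ = X.det • Xi := by rw [h13, mul_smul_comm, mul_one]
      rw [h12, mul_smul_comm, smul_smul, inv_mul_cancel₀ hdet0, one_smul]
    rw [h11]
    exact S.smul_mem _ hmem
  have h14 : C ∈ ln X * S := by
    rw [hSX, mem_mul_ln]
    exact ⟨C * Xi, h10, by rw [mul_assoc, e2, mul_one]⟩
  obtain ⟨s, hs, hs'⟩ := mem_ln_mul.1 h14
  have h15 : Xi * A * B - B * (Xi * A) = s := by
    have h16 : s = Xi * C := by rw [← hs', ← mul_assoc, e2, one_mul]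
    have h17 : Xi * B0 = B * Xi := by
      calc Xi * B0 = Xi * B0 * (X * Xi) := by rw [e1, mul_one]
        _ = Xi * (B0 * X) * Xi := by simp only [mul_assoc]
        _ = Xi * (X * B) * Xi := by rw [hB0']
        _ = (Xi * X) * (B * Xi) := by simp only [mul_assoc]
        _ = B * Xi := by rw [e2, one_mul]
    rw [h16, hC, mul_sub, ← mul_assoc Xi B0, h17]
    simp only [mul_assoc]
  rw [h15]; exact hs

end Normaliser

end Pool.Agent.Results.MP_8bfff4_mp.ExactValue
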