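import Mathlib
import Pool.Agent.Helper565.QWh

namespace Pool.Agent.Results.MP_8bfff4_mp.ExactValue

open Matrix

section Final

variable {D : ℕ} {W : Submodule ℂ (Matrix (Fin D) (Fin D) ℂ)}

/-- not commuting with `W^i` is a generic condition, so one unit works for many `i` -/
lemma generic_unit {Y : Matrix (Fin D) (Fin D) ℂ} (hY : Y ∈ W) (hYu : IsUnit Y) (K : ℕ)
    (h : ∀ i, 1 ≤ i → i < K → ¬ St W (W ^ i)) :
    ∃ P : (ℕ → Matrix (Fin D) (Fin D) ℂ) → Prop, LO P ∧ (∃ s, (∀ i, s i ∈ W) ∧ P s) ∧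
      ∀ s, P s → (D * D ≤ fr ((⊤ : Submodule ℂ (Matrix (Fin D) (Fin D) ℂ)) * ln (s 0)) ∧
        ∀ i, 1 ≤ i → i < K → fr (W ^ i) < fr (ln (s 0) * W ^ i ⊔ W ^ i * ln (s 0))) := by
  induction K with
  | zero =>
    refine ⟨fun s => D * D ≤ fr ((⊤ : Submodule ℂ (Matrix (Fin D) (Fin D) ℂ)) * ln (s 0)),
      ((PF.const _).mul (PF.coord 0)).lo _, ⟨fun _ => Y, fun _ => hY, ?_⟩, ?_⟩
    · show D * D ≤ fr ((⊤ : Submodule ℂ (Matrix (Fin D) (Fin D) ℂ)) * ln Y)
      rw [fr_mul_ln hYu, fr_top]
    · intro s hs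
      exact ⟨hs, fun i _ hi => absurd hi (Nat.not_lt_zero i)⟩
  | succ K ih =>
    obtain ⟨P, hP1, hP2, hP3⟩ := ih (fun i hi hi' => h i hi (by omega))
    rcases Nat.eq_zero_or_pos K with h0 | h0
    · subst h0
      refine ⟨P, hP1, hP2, fun s hs => ⟨(hP3 s hs).1, fun i hi hi' => by omega⟩⟩
    · have h1 := h K h0 (Nat.lt_succ_self K)
      unfold St at h1
      push Not at h1
      obtain ⟨X, hX, hXu, hne⟩ := h1
      have hlt : fr (W ^ K) + 1 ≤ fr (ln X * W ^ K ⊔ W ^ K * ln X) := by
        by_contra hcon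
        push Not at hcon
        have e1 : ln X * W ^ K = ln X * W ^ K ⊔ W ^ K * ln X := by
          apply eq_of_le_of_fr_le le_sup_left
          rw [fr_ln_mul hXu]; omega
        have e2 : W ^ K * ln X = ln X * W ^ K ⊔ W ^ K * ln X := by
          apply eq_of_le_of_fr_le le_sup_right
          rw [fr_mul_ln hXu]; omega
        exact hne (e1.trans e2.symm)
      have hR : LO (fun s : ℕ → Matrix (Fin D) (Fin D) ℂ =>
          fr (W ^ K) + 1 ≤ fr (ln (s 0) * W ^ K ⊔ W ^ K * ln (s 0))) :=
        (((PF.coord 0).mul (PF.const _)).sup ((PF.const _).mul (PF.coord 0))).lo _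
      refine ⟨_, hP1.and hR, hP1.exists hR W hP2 ⟨fun _ => X, fun _ => hX, hlt⟩, ?_⟩
      rintro s ⟨hs1, hs2⟩
      refine ⟨(hP3 s hs1).1, ?_⟩
      intro i hi hi'
      rcases Nat.lt_or_ge i K with h2 | h2
      · exact (hP3 s hs1).2 i hi h2
      · have : i = K := by omega
        subst this
        exact hs2

lemma count_of_unstable (hD : 2 ≤ D) {Y : Matrix (Fin D) (Fin D) ℂ} (hY : Y ∈ W) (hYu : IsUnit Y)
    {N : ℕ} (hN : W ^ N = ⊤) {K : ℕ} (hK : K ≤ N)
    (h : ∀ i, 1 ≤ i → i < K → ¬ St W (W ^ i)) : K + D ≤ D * D + 1 := by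
  obtain ⟨P, -, ⟨s, hs, hPs⟩, hP3⟩ := generic_unit hY hYu K h
  obtain ⟨h1, h2⟩ := hP3 s hPs
  exact gen_count hD (hs 0) (isUnit_of_fr (le_antisymm (fr_le _) h1)) hN hK h2

lemma part2 (hD : 2 ≤ D) {p : ℕ} (hp : Full (W ^ p)) {Y : Matrix (Fin D) (Fin D) ℂ}
    (hY : Y ∈ W) (hYu : IsUnit Y) : Full (W ^ (D * D - D + 1)) := by
  classical
  have hex := exists_top hD hp
  let N := Nat.find hex
  have hN : W ^ N = ⊤ := Nat.find_spec hex
  have hmin : ∀ i, i < N → W ^ i ≠ ⊤ := fun i hi => Nat.find_min hex hi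
  have hDD : D ≤ D * D := Nat.le_mul_self D
  have hDD2 : 2 * 2 ≤ D * D := Nat.mul_le_mul hD hD
  by_cases hcase : N ≤ D * D - D + 1
  · exact full_of_top (top_le hD hp hcase hN)
  push Not at hcase
  have hN1 : 1 ≤ N := by omega
  -- growth
  have hgrow : ∀ n, n ≤ N → n + 1 ≤ fr (W ^ n) := by
    intro n
    induction n with
    | zero =>
      intro _
      by_contra hcon
      push Not at hcon
      have h1 : fr (W ^ 0) = 0 := by omega
      have h2 : W ^ 0 = ⊥ := by
        unfold fr at h1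
        exact Submodule.finrank_eq_zero.1 h1
      have h3 : (1 : Matrix (Fin D) (Fin D) ℂ) ∈ W ^ 0 := by
        rw [pow_zero]; exact Submodule.one_le.1 le_rfl
      rw [h2, Submodule.mem_bot] at h3
      have h4 := congrFun (congrFun h3 ⟨0, by omega⟩) ⟨0, by omega⟩
      rw [Matrix.one_apply_eq, Matrix.zero_apply] at h4
      exact one_ne_zero h4
    | succ n ih =>
      intro hn
      have h1 := ih (by omega)
      by_contra hcon
      push Not at hcon
      exact hmin n (by omega) (strict_growth hD hp hY hYu (by omega))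
  have hA : ∀ n, 1 ≤ n → n < N → St W (W ^ n) → n = N - 1 ∧ Full (W ^ n) := by
    intro n hn hnN hst
    by_cases hq : nrm (W ^ n) = ⊤
    · have hbrg : ∀ C, ∀ B ∈ W ^ n, C * B - B * C ∈ W ^ n := by
        intro C B hB
        have : C ∈ nrm (W ^ n) := by rw [hq]; trivial
        exact this B hB
      have hbrg' : ∀ C, ∀ B ∈ W ^ n, B * C - C * B ∈ W ^ n := by
        intro C B hB
        have := (W ^ n).neg_mem (hbrg C B hB)
        rwa [neg_sub] at this
      obtain ⟨x, hx, hxs⟩ : ∃ x ∈ W ^ n, ∀ c : ℂ, x ≠ c • (1 : Matrix (Fin D) (Fin D) ℂ) := by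
        by_contra hcon
        push Not at hcon
        have h1 : W ^ n ≤ ln 1 := by
          intro x hx
          obtain ⟨c, hc⟩ := hcon x hx
          rw [hc]
          exact (ln 1).smul_mem c (mem_ln_self 1)
        have h2 := fr_mono h1
        have h3 : fr (ln (1 : Matrix (Fin D) (Fin D) ℂ)) ≤ 1 := by
          unfold fr ln
          exact (finrank_span_le_card _).trans (by simp)
        have h4 := hgrow n (by omega)
        omega
      have hrk := rank_one_of hD hp hY hYu (S := W ^ n) (fun x _ y hy => hbrg x y hy) hst hxs (by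
        intro g g'
        apply hbrg'
        apply hbrg
        exact hbrg' g x hx)
      refine ⟨?_, full_of_rank_one hD hrk⟩
      have h5 := fr_of_rank_one hD hrk
      have h6 : fr (W ^ n) ≠ D * D := by
        intro h7
        apply hmin n hnN
        apply eq_of_le_of_fr_le le_top
        rw [fr_top, h7]
      have h8 : W ^ (n+1) = ⊤ := by
        apply eq_of_le_of_fr_le le_top
        rw [fr_top]
        by_contra hcon
        push Not at hcon
        exact hmin n hnN (strict_growth hD hp hY hYu (by omega))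
      have h9 : N ≤ n + 1 := Nat.find_min' hex h8
      omega
    · exfalso
      have h1 := thmB hD hp hY hYu (N := N) (fun i _ hi => hmin i hi) hN1 (q := nrm (W ^ n))
        (fun X hX hXu => nrm_le hst hX hXu) (fun X hX hXu => (nrm_st hst X hX hXu).ge)
      have h2 := proper_codim hD hp hY hYu (nrm_br (W ^ n)) (nrm_st hst) (one_mem_nrm _) hq
      omega
  by_cases hlast : St W (W ^ (N - 1))
  · have h1 := hA (N - 1) (by omega) (by omega) hlast
    have h2 := count_of_unstable hD hY hYu hN (K := N - 1) (by omega) (by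
      intro i hi hi' hst
      have := (hA i hi (by omega) hst).1
      omega)
    exact h1.2.le hD (by omega)
  · have h2 := count_of_unstable hD hY hYu hN (K := N) le_rfl (by
      intro i hi hi' hst
      have := (hA i hi hi' hst).1
      rw [this] at hst
      exact hlast hst)
    exact full_of_top (top_le hD hp (by omega) hN)

/-- the sharp bound for matrix spaces -/
lemma full_bound (hD : 2 ≤ D) {p : ℕ} (hp : Full (W ^ p)) : Full (W ^ (D * D - D + 1)) := by
  by_cases h : ∃ Y ∈ W, IsUnit Y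
  · obtain ⟨Y, hY, hYu⟩ := h
    exact part2 hD hp hY hYu
  · push Not at h
    exact part1 hD hp h

end Final

end Pool.Agent.Results.MP_8bfff4_mp.ExactValue
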